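import Pool.Agent.W2helper17.SOS.SetUp

/-!
# MP_ce7760_an, piece J4 (helper17), third part: `DatAlg`
-/

open MvPolynomial

namespace Pool.Agent.W2helper17.SOS

open Pool.Agent.W2helper74.SOS

variable {n : ℕ}

theorem star_eval (z : Fin n → ℂ) (p : Pol n) :
    star (eval (star z) p) = eval z (map (starRingEnd ℂ) p) := by
  rw [eval_map]
  have h := eval₂_comp_left (starRingEnd ℂ) (RingHom.id ℂ) (star z) p
  rw [RingHom.comp_id] at h
  have h2 : (starRingEnd ℂ) ∘ (star z) = z := by
    funext i
    exact Complex.conj_conj _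
  rw [h2] at h
  exact h

/-- the conjugate evaluation vectors of independent polynomials span -/
theorem span_eval {r : ℕ} (e : Fin r → Pol n) (he : LinearIndependent ℂ e) :
    Submodule.span ℂ (Set.range fun w : Fin n → ℂ =>
      (fun l => star (eval (star w) (e l)) : Fin r → ℂ)) = ⊤ := by
  by_contra hne
  obtain ⟨f, hf0, hf⟩ := Submodule.exists_le_ker_of_lt_top _ (lt_top_iff_ne_top.2 hne)
  have hfx : ∀ x : Fin r → ℂ, f x = ∑ l, x l * f (Pi.single l 1) := by
    intro x
    conv_lhs => rw [pi_eq_sum_univ' x]
    rw [map_sum]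
    refine Finset.sum_congr rfl (fun l _ => ?_)
    rw [map_smul, smul_eq_mul]
  have h0 : (∑ l, (starRingEnd ℂ) (f (Pi.single l 1)) • e l) = 0 := by
    refine MvPolynomial.funext (fun z => ?_)
    rw [map_zero, map_sum]
    have h1 : f (fun l => star (eval z (e l))) = 0 := by
      have h2 := hf (Submodule.subset_span ⟨star z, rfl⟩)
      rw [LinearMap.mem_ker] at h2
      simpa only [star_star] using h2
    rw [hfx] at h1
    have h3 := congrArg (starRingEnd ℂ) h1
    rw [map_zero, map_sum] at h3
    rw [← h3]
    refine Finset.sum_congr rfl (fun l _ => ?_)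
    rw [smul_eval, map_mul, mul_comm]
    congr 1
    exact (Complex.conj_conj _).symm
  have h4 := Fintype.linearIndependent_iff.1 he _ h0
  apply hf0
  refine LinearMap.ext (fun x => ?_)
  rw [hfx]
  refine Finset.sum_eq_zero (fun l _ => ?_)
  have h5 := h4 l
  rw [map_eq_zero] at h5
  rw [h5, mul_zero]

theorem prod_poly (w u : Fin n → ℂ) (α : Fin n → ℕ) (s : Finset (Fin n)) :
    (∏ i ∈ s, (Polynomial.C (w i) * Polynomial.X + Polynomial.C (u i)) ^ α i).natDegree ≤
        ∑ i ∈ s, α i ∧
      (∏ i ∈ s, (Polynomial.C (w i) * Polynomial.X + Polynomial.C (u i)) ^ α i).coeff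
        (∑ i ∈ s, α i) = ∏ i ∈ s, w i ^ α i := by
  classical
  have h1 : ∀ i, (Polynomial.C (w i) * Polynomial.X + Polynomial.C (u i)).natDegree ≤ 1 :=
    fun i => Polynomial.natDegree_linear_le
  have h2 : ∀ i, ((Polynomial.C (w i) * Polynomial.X + Polynomial.C (u i)) ^ α i).natDegree ≤
      α i := fun i => (Polynomial.natDegree_pow_le_of_le (α i) (h1 i)).trans (by omega)
  have h3 : ∀ i, ((Polynomial.C (w i) * Polynomial.X + Polynomial.C (u i)) ^ α i).coeff (α i) =
      w i ^ α i := by
    intro i
    have h := Polynomial.coeff_pow_of_natDegree_le (m := α i) (h1 i)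
    rw [mul_one] at h
    rw [h]
    simp
  induction s using Finset.induction_on with
  | empty => simp
  | insert a s ha ih =>
    rw [Finset.prod_insert ha, Finset.sum_insert ha, Finset.prod_insert ha]
    refine ⟨Polynomial.natDegree_mul_le_of_le (h2 a) ih.1, ?_⟩
    rw [Polynomial.coeff_mul_add_eq_of_natDegree_le (h2 a) ih.1, h3, ih.2]

theorem hom_poly {D : ℕ} (e : Pol n) (he : e.IsHomogeneous D) (w u : Fin n → ℂ) :
    ∃ q : Polynomial ℂ, q.natDegree ≤ D ∧ q.coeff D = eval w e ∧
      ∀ t, q.eval t = eval (t • w + u) e := by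
  have hq : eval₂ Polynomial.C (fun i => Polynomial.C (w i) * Polynomial.X + Polynomial.C (u i))
      e = ∑ d ∈ e.support, Polynomial.C (coeff d e) *
        ∏ i, (Polynomial.C (w i) * Polynomial.X + Polynomial.C (u i)) ^ d i := eval₂_eq' _ _ _
  have hd : ∀ d ∈ e.support, ∑ i, d i = D := by
    intro d hd
    have h := he (mem_support_iff.1 hd)
    rw [← h, Finsupp.weight_apply]
    rw [Finsupp.sum_fintype _ _ (by simp)]
    simp
  refine ⟨eval₂ Polynomial.C (fun i => Polynomial.C (w i) * Polynomial.X + Polynomial.C (u i)) e,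
    ?_, ?_, ?_⟩
  · rw [hq]
    refine Polynomial.natDegree_sum_le_of_forall_le _ _ (fun d hd' => ?_)
    refine (Polynomial.natDegree_C_mul_le _ _).trans ?_
    rw [← hd d hd']
    exact (prod_poly w u d Finset.univ).1
  · rw [hq, Polynomial.finsetSum_coeff, eval_eq']
    refine Finset.sum_congr rfl (fun d hd' => ?_)
    rw [Polynomial.coeff_C_mul]
    congr 1
    have h := (prod_poly w u d Finset.univ).2
    rw [hd d hd'] at h
    exact h
  · intro t
    rw [hq, Polynomial.eval_finsetSum, eval_eq']
    refine Finset.sum_congr rfl (fun d _ => ?_)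
    rw [Polynomial.eval_mul, Polynomial.eval_C, Polynomial.eval_prod]
    congr 1
    refine Finset.prod_congr rfl (fun i _ => ?_)
    simp only [Polynomial.eval_pow, Polynomial.eval_add, Polynomial.eval_mul, Polynomial.eval_C,
      Polynomial.eval_X, Pi.add_apply, Pi.smul_apply, smul_eq_mul]
    ring

theorem eval_lf (z w : Fin n → ℂ) : eval z (lf w) = ∑ k, w k * z k := by
  rw [lf, map_sum]
  exact Finset.sum_congr rfl (fun k _ => by rw [map_mul, eval_C, eval_X])

theorem datAlg : DatAlg := by
  classical
  intro n m r D d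
  let av : (Fin n → ℂ) → Pol n := fun w =>
    ∑ i, (∑ l, d.a i l * star (eval (star w) (d.e l))) • d.e i
  have hV : ∀ w, lf w * av w = ∑ j, star (eval (star w) (d.p j)) • d.p j := by
    intro w
    refine MvPolynomial.funext (fun z => ?_)
    have h := d.main z (star w)
    rw [map_mul, eval_lf, map_sum (eval z) (fun j => star (eval (star w) (d.p j)) • d.p j)]
    simp only [smul_eval]
    rw [show (∑ j, star (eval (star w) (d.p j)) * eval z (d.p j)) =
      ∑ j, eval z (d.p j) * star (eval (star w) (d.p j)) from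
        Finset.sum_congr rfl (fun j _ => mul_comm _ _), h]
    congr 1
    · refine Finset.sum_congr rfl (fun k _ => ?_)
      rw [Pi.star_apply, star_star, mul_comm]
    · show eval z (∑ i, (∑ l, d.a i l * star (eval (star w) (d.e l))) • d.e i) = _
      rw [map_sum]
      refine Finset.sum_congr rfl (fun i _ => ?_)
      rw [smul_eval, Finset.sum_mul]
      refine Finset.sum_congr rfl (fun l _ => ?_)
      ring
  refine ⟨⟨d.V, d.E, av, ?_, ?_, ?_, ?_, ?_⟩, rfl, rfl⟩
  · exact Module.Finite.span_of_finite ℂ (Set.finite_range _)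
  · exact Module.Finite.span_of_finite ℂ (Set.finite_range _)
  · -- span of `V`
    have h1 : (Set.range fun w => lf w * av w) =
        (Fintype.linearCombination ℂ d.p) '' (Set.range fun w : Fin n → ℂ =>
          (fun l => star (eval (star w) (d.p l)) : Fin m → ℂ)) := by
      rw [← Set.range_comp]
      congr 1
      funext w
      rw [hV, Function.comp_apply, Fintype.linearCombination_apply]
    rw [h1, Submodule.span_image, span_eval d.p d.p_ind, Submodule.map_top,
      Fintype.range_linearCombination]
    rfl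
  · -- span of `E`
    have h1 : (Set.range av) =
        ((Fintype.linearCombination ℂ d.e).comp (Matrix.mulVecLin d.a)) ''
          (Set.range fun w : Fin n → ℂ =>
          (fun l => star (eval (star w) (d.e l)) : Fin r → ℂ)) := by
      rw [← Set.range_comp]
      congr 1
    rw [h1, Submodule.span_image, span_eval d.e d.e_ind, Submodule.map_top,
      LinearMap.range_comp]
    have h2 : LinearMap.range (Matrix.mulVecLin d.a) = ⊤ := by
      rw [LinearMap.range_eq_top]
      intro x
      refine ⟨d.a⁻¹.mulVec x, ?_⟩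
      rw [Matrix.mulVecLin_apply, Matrix.mulVec_mulVec, Matrix.mul_nonsing_inv _ d.a_unit,
        Matrix.one_mulVec]
    rw [h2, Submodule.map_top, Fintype.range_linearCombination]
    rfl
  · -- homogeneity
    intro w u
    have h1 : ∀ l, ∃ q : Polynomial ℂ, q.natDegree ≤ D ∧
        q.coeff D = star (eval (star w) (d.e l)) ∧
          ∀ t, q.eval t = star (eval (star (t • w + u)) (d.e l)) := by
      intro l
      obtain ⟨q, hq1, hq2, hq3⟩ := hom_poly (map (starRingEnd ℂ) (d.e l))
        ((d.e_hom l).map _) w u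
      exact ⟨q, hq1, by rw [hq2, star_eval], fun t => by rw [hq3, star_eval]⟩
    choose q hq1 hq2 hq3 using h1
    refine ⟨D, fun k => ∑ i, (∑ l, d.a i l * (q l).coeff k) • d.e i, ?_, ?_⟩
    · show ∑ i, (∑ l, d.a i l * (q l).coeff D) • d.e i = av w
      simp only [hq2]
      rfl
    · intro t
      show ∑ i, (∑ l, d.a i l * star (eval (star (t • w + u)) (d.e l))) • d.e i = _
      simp only [← hq3, Finset.smul_sum]
      rw [Finset.sum_comm]
      refine Finset.sum_congr rfl (fun i _ => ?_)
      simp only [smul_smul, ← Finset.sum_smul]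
      congr 1
      simp only [Finset.mul_sum]
      rw [Finset.sum_comm]
      refine Finset.sum_congr rfl (fun l _ => ?_)
      rw [Polynomial.eval_eq_sum_range' (Nat.lt_succ_of_le (hq1 l)), Finset.mul_sum]
      refine Finset.sum_congr rfl (fun k _ => ?_)
      ring

end Pool.Agent.W2helper17.SOS
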