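import Pool.Agent.W2helper74.SOS.Stm
import Pool.Agent.H402R2.CE.T3
import Pool.Agent.H402R2.CE.T2b

/-!
# MP_ce7760_an, piece J4 (helper17), first part: monomial substitutions and homogenisation
-/

open MvPolynomial

namespace Pool.Agent.W2helper17.SOS

open Pool.Agent.W2helper74.SOS

/-- apply `f` on exponents -/
noncomputable def mm {σ : Type*} (f : (σ →₀ ℕ) → (σ →₀ ℕ)) :
    MvPolynomial σ ℂ →ₗ[ℂ] MvPolynomial σ ℂ :=
  (basisMonomials σ ℂ).constr ℂ (fun α => monomial (f α) (1 : ℂ))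

theorem mm_monomial {σ : Type*} (f : (σ →₀ ℕ) → (σ →₀ ℕ)) (α : σ →₀ ℕ) (c : ℂ) :
    mm f (monomial α c) = monomial (f α) c := by
  have h : monomial α c = c • basisMonomials σ ℂ α := by
    rw [coe_basisMonomials, smul_monomial]; simp
  rw [h, map_smul, mm, Module.Basis.constr_basis, smul_monomial]; simp

theorem mm_eq_sum {σ : Type*} (f : (σ →₀ ℕ) → (σ →₀ ℕ)) (p : MvPolynomial σ ℂ) :
    mm f p = ∑ α ∈ p.support, monomial (f α) (coeff α p) := by
  conv_lhs => rw [p.as_sum]
  rw [map_sum]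
  exact Finset.sum_congr rfl (fun α _ => mm_monomial f α _)

/-- `mm f` is injective where `f` is -/
theorem mm_inj {σ : Type*} (f : (σ →₀ ℕ) → (σ →₀ ℕ)) (p : MvPolynomial σ ℂ)
    (hf : Set.InjOn f (p.support : Set (σ →₀ ℕ))) (h : mm f p = 0) : p = 0 := by
  classical
  by_contra hne
  obtain ⟨α, hα⟩ := (support_nonempty.2 hne)
  have h1 : coeff (f α) (mm f p) = coeff α p := by
    rw [mm_eq_sum, coeff_sum, Finset.sum_eq_single α]
    · rw [coeff_monomial, if_pos rfl]
    · intro β hβ hne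
      rw [coeff_monomial, if_neg]
      intro hc
      exact hne (hf hβ hα hc)
    · intro hc
      exact absurd hα hc
  rw [h, coeff_zero] at h1
  exact (mem_support_iff.1 hα) h1.symm

theorem mm_hom {σ : Type*} (f : (σ →₀ ℕ) → (σ →₀ ℕ)) (p : MvPolynomial σ ℂ) (N : ℕ)
    (hf : ∀ α ∈ p.support, (f α).degree = N) : (mm f p).IsHomogeneous N := by
  rw [mm_eq_sum]
  refine IsHomogeneous.sum _ _ _ (fun α hα => ?_)
  exact isHomogeneous_monomial _ (hf α hα)

variable {n : ℕ}

/-- `f` on both blocks of exponents -/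
noncomputable def pr (f : (Fin n →₀ ℕ) → (Fin n →₀ ℕ)) (e : Fin n ⊕ Fin n →₀ ℕ) :
    Fin n ⊕ Fin n →₀ ℕ :=
  Finsupp.sumElim (f (e.comapDomain Sum.inl Sum.inl_injective.injOn))
    (f (e.comapDomain Sum.inr Sum.inr_injective.injOn))

theorem comap_inl (α β : Fin n →₀ ℕ) : (Finsupp.sumElim α β).comapDomain Sum.inl
    Sum.inl_injective.injOn = α := by
  ext i; simp

theorem comap_inr (α β : Fin n →₀ ℕ) : (Finsupp.sumElim α β).comapDomain Sum.inr
    Sum.inr_injective.injOn = β := by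
  ext i; simp

theorem exists_sumElim (e : Fin n ⊕ Fin n →₀ ℕ) : ∃ α β : Fin n →₀ ℕ, e = Finsupp.sumElim α β := by
  refine ⟨e.comapDomain Sum.inl Sum.inl_injective.injOn,
    e.comapDomain Sum.inr Sum.inr_injective.injOn, ?_⟩
  ext i
  rcases i with i | i <;> simp

theorem pr_sumElim (f : (Fin n →₀ ℕ) → (Fin n →₀ ℕ)) (α β : Fin n →₀ ℕ) :
    pr f (Finsupp.sumElim α β) = Finsupp.sumElim (f α) (f β) := by
  rw [pr, comap_inl, comap_inr]

theorem ren_mul_ren (α β : Fin n →₀ ℕ) (a b : ℂ) :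
    (rename Sum.inl (monomial α a) * rename Sum.inr (monomial β b) :
      MvPolynomial (Fin n ⊕ Fin n) ℂ) = monomial (Finsupp.sumElim α β) (a * b) := by
  rw [rename_monomial, rename_monomial, monomial_mul, H402.CE.t2b_map]

theorem mm_mul (f : (Fin n →₀ ℕ) → (Fin n →₀ ℕ)) (p q : MvPolynomial (Fin n) ℂ) :
    mm (pr f) (rename Sum.inl p * rename Sum.inr q) =
      rename Sum.inl (mm f p) * rename Sum.inr (mm f q) := by
  refine MvPolynomial.induction_on' p (fun u a => ?_) (fun p p' hp hp' => ?_)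
  · refine MvPolynomial.induction_on' q (fun v b => ?_) (fun q q' hq hq' => ?_)
    · rw [ren_mul_ren, mm_monomial, mm_monomial, mm_monomial, ren_mul_ren, pr_sumElim]
    · simp only [map_add, mul_add, hq, hq']
  · simp only [map_add, add_mul, hp, hp']

theorem degree_sumElim (α β : Fin n →₀ ℕ) :
    (Finsupp.sumElim α β).degree = α.degree + β.degree := by
  rw [← H402.CE.t2b_map, map_add, Finsupp.degree_mapDomain, Finsupp.degree_mapDomain]

theorem xx_mul (k : Fin n) (α β : Fin n →₀ ℕ) (c : ℂ) :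
    (X (Sum.inl k) * X (Sum.inr k) * monomial (Finsupp.sumElim α β) c :
      MvPolynomial (Fin n ⊕ Fin n) ℂ) =
      monomial (Finsupp.sumElim (α + Finsupp.single k 1) (β + Finsupp.single k 1)) c := by
  have h1 : monomial (Finsupp.sumElim α β) c = (rename Sum.inl (monomial α 1) *
    rename Sum.inr (monomial β c) : MvPolynomial (Fin n ⊕ Fin n) ℂ) := by
    rw [ren_mul_ren, one_mul]
  have h2 : (X (Sum.inl k) : MvPolynomial (Fin n ⊕ Fin n) ℂ) = rename Sum.inl (X k) := by
    rw [rename_X]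
  have h3 : (X (Sum.inr k) : MvPolynomial (Fin n ⊕ Fin n) ℂ) = rename Sum.inr (X k) := by
    rw [rename_X]
  calc (X (Sum.inl k) * X (Sum.inr k) * monomial (Finsupp.sumElim α β) c :
      MvPolynomial (Fin n ⊕ Fin n) ℂ) = rename Sum.inl (X k * monomial α 1) *
        rename Sum.inr (X k * monomial β c) := by
        rw [h1, h2, h3, map_mul, map_mul]; ring
    _ = _ := by
        rw [X, monomial_mul, monomial_mul, ren_mul_ren, add_comm α, add_comm β]
        simp

theorem mm_xx (f f' : (Fin n →₀ ℕ) → (Fin n →₀ ℕ))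
    (hf : ∀ α k, f (α + Finsupp.single k 1) = f' α + Finsupp.single k 1)
    (A : MvPolynomial (Fin n ⊕ Fin n) ℂ) :
    mm (pr f) ((∑ k : Fin n, X (Sum.inl k) * X (Sum.inr k)) * A) =
      (∑ k : Fin n, X (Sum.inl k) * X (Sum.inr k)) * mm (pr f') A := by
  refine MvPolynomial.induction_on' A (fun e c => ?_) (fun p p' hp hp' => ?_)
  · obtain ⟨α, β, rfl⟩ := exists_sumElim e
    rw [Finset.sum_mul, map_sum, Finset.sum_mul, mm_monomial, pr_sumElim]
    refine Finset.sum_congr rfl (fun k _ => ?_)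
    rw [xx_mul, mm_monomial, pr_sumElim, hf, hf, xx_mul]
  · simp only [map_add, mul_add, hp, hp']

/-- the exponent shift -/
noncomputable def sh (i₁ i₂ : Fin n) (B : ℕ) (α : Fin n →₀ ℕ) : Fin n →₀ ℕ :=
  α + Finsupp.single i₁ (B * α.degree) + Finsupp.single i₂ ((B + 1) * (B - α.degree))

/-- the exponent shift for the quotient -/
noncomputable def sh' (i₁ i₂ : Fin n) (B : ℕ) (α : Fin n →₀ ℕ) : Fin n →₀ ℕ :=
  α + Finsupp.single i₁ (B * (α.degree + 1)) +
    Finsupp.single i₂ ((B + 1) * (B - (α.degree + 1)))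

theorem sh_add (i₁ i₂ : Fin n) (B : ℕ) (α : Fin n →₀ ℕ) (k : Fin n) :
    sh i₁ i₂ B (α + Finsupp.single k 1) = sh' i₁ i₂ B α + Finsupp.single k 1 := by
  rw [sh, sh', map_add, Finsupp.degree_single]
  abel

theorem sh_degree (i₁ i₂ : Fin n) (B : ℕ) (α : Fin n →₀ ℕ) (h : α.degree ≤ B) :
    (sh i₁ i₂ B α).degree = (B + 1) * B := by
  rw [sh, map_add, map_add, Finsupp.degree_single, Finsupp.degree_single]
  obtain ⟨c, hc⟩ := Nat.exists_eq_add_of_le h
  rw [show B - α.degree = c by omega]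
  generalize α.degree = a at *
  subst hc
  ring

theorem sh'_degree (i₁ i₂ : Fin n) (B : ℕ) (α : Fin n →₀ ℕ) (h : α.degree < B) :
    (sh' i₁ i₂ B α).degree = (B + 1) * B - 1 := by
  rw [sh', map_add, map_add, Finsupp.degree_single, Finsupp.degree_single]
  obtain ⟨c, hc⟩ := Nat.exists_eq_add_of_lt h
  rw [show B - (α.degree + 1) = c by omega]
  generalize α.degree = a at *
  subst hc
  have : (a + c + 1 + 1) * (a + c + 1) = a + (a + c + 1) * (a + 1) + (a + c + 1 + 1) * c + 1 := by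
    ring
  omega

theorem sh_inj (i₁ i₂ : Fin n) (h12 : i₁ ≠ i₂) (B : ℕ) :
    Set.InjOn (sh i₁ i₂ B) {α | α.degree < B} := by
  intro α hα β hβ h
  simp only [Set.mem_setOf_eq] at hα hβ
  have h1 := DFunLike.congr_fun h i₁
  simp only [sh, Finsupp.add_apply, Finsupp.single_eq_same] at h1
  rw [Finsupp.single_apply, Finsupp.single_apply, if_neg h12.symm, if_neg h12.symm] at h1
  have ha : α i₁ ≤ α.degree := Finsupp.le_degree i₁ α
  have hb : β i₁ ≤ β.degree := Finsupp.le_degree i₁ β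
  have hd : α.degree = β.degree := by
    have e1 : (α i₁ + B * α.degree) / B = α.degree := by
      rw [Nat.add_mul_div_left _ _ (by omega), Nat.div_eq_of_lt (by omega), zero_add]
    have e2 : (β i₁ + B * β.degree) / B = β.degree := by
      rw [Nat.add_mul_div_left _ _ (by omega), Nat.div_eq_of_lt (by omega), zero_add]
    rw [← e1, ← e2]
    congr 1
  rw [sh, sh, hd] at h
  exact add_right_cancel (add_right_cancel h)

end Pool.Agent.W2helper17.SOS
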