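import Pool.Agent.W2helper17.SOS.Hom

/-!
# MP_ce7760_an, piece J4 (helper17), second part: `SetUp`
-/

open MvPolynomial

namespace Pool.Agent.W2helper17.SOS

open Pool.Agent.W2helper74.SOS

/-- rank factorisation of a hermitian matrix, from the spectral theorem -/
theorem rank_fact {I : Type*} [Fintype I] [DecidableEq I] (c : Matrix I I ℂ)
    (hc : c.IsHermitian) :
    ∃ (r : ℕ) (l : Fin r → ℝ) (u : Fin r → I → ℂ), (∀ i, l i ≠ 0) ∧ LinearIndependent ℂ u ∧
      ∀ α β, c α β = ∑ i, (l i : ℂ) * u i α * star (u i β) := by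
  classical
  let K := {k : I // hc.eigenvalues k ≠ 0}
  let e : Fin (Fintype.card K) ≃ K := (Fintype.equivFin K).symm
  refine ⟨Fintype.card K, fun i => hc.eigenvalues (e i),
    fun i α => (hc.eigenvectorUnitary : Matrix I I ℂ) α (e i), fun i => (e i).2, ?_, ?_⟩
  · have h1 : LinearIndependent ℂ (hc.eigenvectorUnitary : Matrix I I ℂ).col := by
      apply Matrix.linearIndependent_cols_of_isUnit
      exact (Unitary.toUnits hc.eigenvectorUnitary).isUnit
    exact h1.comp (fun i => (e i : I)) (Subtype.val_injective.comp e.injective)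
  · intro α β
    have h2 : c α β = ∑ k, (hc.eigenvalues k : ℂ) * (hc.eigenvectorUnitary : Matrix I I ℂ) α k *
        star ((hc.eigenvectorUnitary : Matrix I I ℂ) β k) := by
      conv_lhs => rw [hc.spectral_theorem]
      rw [Unitary.conjStarAlgAut_apply, Matrix.mul_apply]
      refine Finset.sum_congr rfl (fun k _ => ?_)
      rw [Matrix.mul_diagonal, Matrix.star_apply]
      simp only [Function.comp_apply]
      rw [mul_comm ((hc.eigenvectorUnitary : Matrix I I ℂ) α k)]
      rfl
    rw [h2]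
    rw [e.sum_comp (fun k : K => (hc.eigenvalues k : ℂ) *
      (hc.eigenvectorUnitary : Matrix I I ℂ) α k *
        star ((hc.eigenvectorUnitary : Matrix I I ℂ) β k))]
    rw [← Finset.sum_filter_add_sum_filter_not Finset.univ (fun k => hc.eigenvalues k ≠ 0)]
    rw [Finset.sum_eq_zero (s := Finset.univ.filter (fun k => ¬ hc.eigenvalues k ≠ 0)), add_zero]
    · exact Finset.sum_subtype _ (fun x => by simp) (fun k => (hc.eigenvalues k : ℂ) *
        (hc.eigenvectorUnitary : Matrix I I ℂ) α k *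
          star ((hc.eigenvectorUnitary : Matrix I I ℂ) β k))
    · intro k hk
      rw [Finset.mem_filter, not_not] at hk
      rw [hk.2]; simp

variable {n : ℕ}

/-- the symmetry of hermitian polynomials -/
noncomputable def tau : MvPolynomial (Fin n ⊕ Fin n) ℂ →+* MvPolynomial (Fin n ⊕ Fin n) ℂ :=
  (rename (R := ℂ) (Sum.swap : Fin n ⊕ Fin n → Fin n ⊕ Fin n)).toRingHom.comp
    (map (starRingEnd ℂ))

theorem tau_apply (P : MvPolynomial (Fin n ⊕ Fin n) ℂ) :
    tau P = rename Sum.swap (map (starRingEnd ℂ) P) := rfl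

theorem map_map_star (p : MvPolynomial (Fin n) ℂ) :
    map (starRingEnd ℂ) (map (starRingEnd ℂ) p) = p := by
  ext α
  rw [coeff_map, coeff_map, Complex.conj_conj]

theorem tau_xx : tau (∑ k : Fin n, X (Sum.inl k) * X (Sum.inr k)) =
    ∑ k : Fin n, X (Sum.inl k) * X (Sum.inr k) := by
  rw [map_sum]
  refine Finset.sum_congr rfl (fun k _ => ?_)
  rw [map_mul, tau_apply, tau_apply, map_X, map_X, rename_X, rename_X]
  simp only [Sum.swap_inl, Sum.swap_inr]
  exact mul_comm _ _

theorem tau_pp (p : MvPolynomial (Fin n) ℂ) :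
    tau (rename Sum.inl p * rename Sum.inr (map (starRingEnd ℂ) p)) =
      rename Sum.inl p * rename Sum.inr (map (starRingEnd ℂ) p) := by
  rw [map_mul, tau_apply, tau_apply, map_rename, map_rename, rename_rename, rename_rename,
    map_map_star]
  have h1 : (Sum.swap ∘ Sum.inl : Fin n → Fin n ⊕ Fin n) = Sum.inr := rfl
  have h2 : (Sum.swap ∘ Sum.inr : Fin n → Fin n ⊕ Fin n) = Sum.inl := rfl
  rw [h1, h2]
  exact mul_comm _ _

theorem coeff_tau (α β : Fin n →₀ ℕ) (P : MvPolynomial (Fin n ⊕ Fin n) ℂ) :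
    coeff (Finsupp.sumElim α β) (tau P) =
      (starRingEnd ℂ) (coeff (Finsupp.sumElim β α) P) := by
  have h : (Finsupp.sumElim β α).mapDomain (Sum.swap : Fin n ⊕ Fin n → Fin n ⊕ Fin n) =
      Finsupp.sumElim α β := by
    rw [← H402.CE.t2b_map, ← H402.CE.t2b_map, Finsupp.mapDomain_add, ← Finsupp.mapDomain_comp,
      ← Finsupp.mapDomain_comp, add_comm]
    rfl
  rw [tau_apply, ← h, coeff_rename_mapDomain _ Sum.swap_leftInverse.injective, coeff_map]

theorem xx_ne_zero (hn : 1 ≤ n) : (∑ k : Fin n, X (Sum.inl k) * X (Sum.inr k) :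
    MvPolynomial (Fin n ⊕ Fin n) ℂ) ≠ 0 := by
  intro h
  have h1 := congrArg (eval (fun _ : Fin n ⊕ Fin n => (1 : ℂ))) h
  simp only [map_sum, map_mul, eval_X, mul_one, Finset.sum_const, Finset.card_univ,
    Fintype.card_fin, map_zero, nsmul_eq_mul] at h1
  have : (n : ℂ) ≠ 0 := Nat.cast_ne_zero.2 (by omega)
  exact this h1

theorem eval_ren (z w : Fin n → ℂ) (p q : MvPolynomial (Fin n) ℂ) :
    eval (Sum.elim z (fun k => (starRingEnd ℂ) (w k)))
      (rename Sum.inl p * rename Sum.inr (map (starRingEnd ℂ) q)) =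
      eval z p * star (eval w q) := by
  rw [map_mul, eval_rename, eval_rename]
  congr 1
  have : (Sum.elim z (fun k => (starRingEnd ℂ) (w k)) ∘ Sum.inr : Fin n → ℂ) =
    (starRingEnd ℂ) ∘ w := rfl
  rw [this, eval_map]
  have h := eval₂_comp_left (starRingEnd ℂ) (RingHom.id ℂ) w q
  rw [RingHom.comp_id] at h
  exact h.symm

/-- evaluation of a polynomial with bihomogeneous support through its matrix of coefficients -/
theorem eval_matrix (S : Finset (Fin n →₀ ℕ)) (P : MvPolynomial (Fin n ⊕ Fin n) ℂ)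
    (hP : ∀ α β, coeff (Finsupp.sumElim α β) P ≠ 0 → α ∈ S ∧ β ∈ S) (z w : Fin n → ℂ) :
    eval (Sum.elim z (fun k => (starRingEnd ℂ) (w k))) P =
      ∑ α : S, ∑ β : S, coeff (Finsupp.sumElim α.1 β.1) P * eval z (monomial α.1 1) *
        star (eval w (monomial β.1 1)) := by
  classical
  have h1 : P = ∑ α : S, ∑ β : S, C (coeff (Finsupp.sumElim α.1 β.1) P) *
      (rename Sum.inl (monomial α.1 1) *
        rename Sum.inr (map (starRingEnd ℂ) (monomial β.1 1))) := by
    ext e
    obtain ⟨x, y, rfl⟩ := exists_sumElim e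
    rw [coeff_sum]
    simp only [coeff_sum, coeff_C_mul, H402.CE.t2b_coeff_mul, map_monomial, map_one,
      coeff_monomial]
    by_cases h : coeff (Finsupp.sumElim x y) P = 0
    · rw [h]
      symm
      refine Finset.sum_eq_zero (fun α _ => Finset.sum_eq_zero (fun β _ => ?_))
      by_cases h1 : α.1 = x
      · by_cases h2 : β.1 = y
        · rw [h1, h2, h, zero_mul]
        · rw [if_neg h2, mul_zero, mul_zero]
      · rw [if_neg h1, zero_mul, mul_zero]
    · obtain ⟨hx, hy⟩ := hP x y h
      rw [Finset.sum_eq_single ⟨x, hx⟩, Finset.sum_eq_single ⟨y, hy⟩]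
      · rw [if_pos rfl, if_pos rfl, mul_one, mul_one]
      · intro β _ hβ
        have : β.1 ≠ y := fun hc => hβ (Subtype.ext hc)
        rw [if_neg this, mul_zero, mul_zero]
      · intro hc; exact absurd (Finset.mem_univ _) hc
      · intro α _ hα
        have : α.1 ≠ x := fun hc => hα (Subtype.ext hc)
        refine Finset.sum_eq_zero (fun β _ => ?_)
        rw [if_neg this, zero_mul, mul_zero]
      · intro hc; exact absurd (Finset.mem_univ _) hc
  conv_lhs => rw [h1]
  rw [map_sum]
  refine Finset.sum_congr rfl (fun α _ => ?_)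
  rw [map_sum]
  refine Finset.sum_congr rfl (fun β _ => ?_)
  rw [map_mul, eval_C, eval_ren, mul_assoc]

theorem eval_xx (z w : Fin n → ℂ) :
    eval (Sum.elim z (fun k => (starRingEnd ℂ) (w k)))
      (∑ k : Fin n, X (Sum.inl k) * X (Sum.inr k)) = ∑ k, z k * star (w k) := by
  rw [map_sum]
  refine Finset.sum_congr rfl (fun k _ => ?_)
  rw [map_mul, eval_X, eval_X]
  rfl

theorem fact_sum {S : Finset (Fin n →₀ ℕ)} {r : ℕ} (c : Matrix S S ℂ) (l : Fin r → ℝ)
    (u : Fin r → S → ℂ) (hcu : ∀ α β, c α β = ∑ i, (l i : ℂ) * u i α * star (u i β))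
    (e : Fin r → Pol n) (z w : Fin n → ℂ)
    (hev : ∀ i (z : Fin n → ℂ), eval z (e i) = ∑ α : S, u i α * eval z (monomial α.1 1)) :
    ∑ α : S, ∑ β : S, c α β * eval z (monomial α.1 1) * star (eval w (monomial β.1 1)) =
      ∑ i, ∑ k, Matrix.diagonal (fun i => (l i : ℂ)) i k * eval z (e i) *
        star (eval w (e k)) := by
  have h3 : ∀ i, (∑ k, Matrix.diagonal (fun i => (l i : ℂ)) i k * eval z (e i) *
      star (eval w (e k))) = ∑ α : S, ∑ β : S, (l i : ℂ) * u i α * star (u i β) *
        eval z (monomial α.1 1) * star (eval w (monomial β.1 1)) := by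
    intro i
    rw [Finset.sum_eq_single i]
    · rw [Matrix.diagonal_apply_eq, hev, hev, star_sum, mul_assoc, Finset.sum_mul_sum,
        Finset.mul_sum]
      refine Finset.sum_congr rfl (fun α _ => ?_)
      rw [Finset.mul_sum]
      refine Finset.sum_congr rfl (fun β _ => ?_)
      rw [star_mul']
      ring
    · intro k _ hk
      rw [Matrix.diagonal_apply_ne _ (Ne.symm hk), zero_mul, zero_mul]
    · intro h; exact absurd (Finset.mem_univ _) h
  simp_rw [h3]
  symm
  rw [Finset.sum_comm]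
  refine Finset.sum_congr rfl (fun α _ => ?_)
  rw [Finset.sum_comm]
  refine Finset.sum_congr rfl (fun β _ => ?_)
  rw [hcu, Finset.sum_mul, Finset.sum_mul]

theorem setUp : SetUp := by
  classical
  intro n m hn hm hS
  obtain ⟨p, hp, A, hA⟩ := hS
  -- polarisation
  have hpol : (∑ j, rename Sum.inl (p j) * rename Sum.inr (map (starRingEnd ℂ) (p j)) :
      MvPolynomial (Fin n ⊕ Fin n) ℂ) = (∑ k : Fin n, X (Sum.inl k) * X (Sum.inr k)) * A := by
    rw [← sub_eq_zero]
    apply H402.CE.t3
    intro z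
    rw [map_sub, map_mul, eval_xx, map_sum, sub_eq_zero]
    have h := hA z
    rw [pow_one] at h
    convert h using 1
    · push_cast
      refine Finset.sum_congr rfl (fun j _ => ?_)
      rw [eval_ren]
      exact Complex.mul_conj' _
    · congr 1
      push_cast
      exact Finset.sum_congr rfl (fun k _ => Complex.mul_conj' _)
  -- bound of the degrees
  obtain ⟨B, hB1, hBp, hBA⟩ : ∃ B : ℕ, 1 ≤ B ∧ (∀ j, ∀ α ∈ (p j).support, α.degree < B) ∧
      ∀ α β, Finsupp.sumElim α β ∈ A.support → α.degree < B ∧ β.degree < B := by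
    refine ⟨(∑ j, (p j).totalDegree) + A.totalDegree + 1, by omega, ?_, ?_⟩
    · intro j α hα
      have h1 : α.degree ≤ (p j).totalDegree := le_totalDegree hα
      have h2 : (p j).totalDegree ≤ ∑ j, (p j).totalDegree :=
        Finset.single_le_sum (f := fun j => (p j).totalDegree) (fun _ _ => Nat.zero_le _)
          (Finset.mem_univ j)
      omega
    · intro α β h
      have h1 : (Finsupp.sumElim α β).degree ≤ A.totalDegree := le_totalDegree h
      rw [degree_sumElim] at h1
      omega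
  obtain ⟨i₁, i₂, h12⟩ : ∃ i₁ i₂ : Fin n, i₁ ≠ i₂ :=
    ⟨⟨0, by omega⟩, ⟨1, by omega⟩, by simp [Fin.ext_iff]⟩
  set f := sh i₁ i₂ B with hf
  set f' := sh' i₁ i₂ B with hf'
  set P : Fin m → Pol n := fun j => mm f (p j) with hPdef
  set A' := mm (pr f') A with hA'
  have hmain : (∑ j, rename Sum.inl (P j) * rename Sum.inr (map (starRingEnd ℂ) (P j)) :
      MvPolynomial (Fin n ⊕ Fin n) ℂ) = (∑ k : Fin n, X (Sum.inl k) * X (Sum.inr k)) * A' := by
    rw [hA', ← mm_xx f f' (fun α k => sh_add i₁ i₂ B α k) A, ← hpol, map_sum]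
    refine Finset.sum_congr rfl (fun j _ => ?_)
    rw [mm_mul]
    congr 2
    rw [hPdef]
    simp only
    rw [mm_eq_sum, mm_eq_sum, map_sum, support_map_of_injective _ (RingHom.injective _)]
    refine Finset.sum_congr rfl (fun α _ => ?_)
    rw [map_monomial, coeff_map]
  set D := (B + 1) * B - 1 with hD
  have hD1 : D + 1 = (B + 1) * B := by
    have : 1 ≤ (B + 1) * B := Nat.one_le_iff_ne_zero.2 (by positivity)
    omega
  -- hermitian symmetry
  have htau : tau A' = A' := by
    have h1 : tau ((∑ k : Fin n, X (Sum.inl k) * X (Sum.inr k)) * A') =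
        (∑ k : Fin n, X (Sum.inl k) * X (Sum.inr k)) * A' := by
      rw [← hmain, map_sum]
      exact Finset.sum_congr rfl (fun j _ => tau_pp _)
    rw [map_mul, tau_xx] at h1
    exact mul_left_cancel₀ (xx_ne_zero (by omega)) h1
  set S : Finset (Fin n →₀ ℕ) := Finset.finsuppAntidiag Finset.univ D with hSdef
  have hSmem : ∀ α, α ∈ S ↔ α.degree = D := by
    intro α
    rw [hSdef, Finset.mem_finsuppAntidiag, Finsupp.degree_eq_sum]
    simp
  have hsupp : ∀ α β, coeff (Finsupp.sumElim α β) A' ≠ 0 → α ∈ S ∧ β ∈ S := by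
    intro α β h
    rw [hA', mm_eq_sum, coeff_sum] at h
    obtain ⟨e, he, hne⟩ := Finset.exists_ne_zero_of_sum_ne_zero h
    obtain ⟨x, y, rfl⟩ := exists_sumElim e
    rw [coeff_monomial, pr_sumElim] at hne
    have h2 : (Finsupp.sumElim (f' x) (f' y) : Fin n ⊕ Fin n →₀ ℕ) = Finsupp.sumElim α β := by
      by_contra hc
      rw [if_neg hc] at hne
      exact hne rfl
    obtain ⟨h3, h4⟩ := (H402.CE.t2b_inj _ _ _ _).1 h2
    obtain ⟨h5, h6⟩ := hBA x y he
    rw [hSmem, hSmem, ← h3, ← h4]
    exact ⟨sh'_degree i₁ i₂ B x h5, sh'_degree i₁ i₂ B y h6⟩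
  -- rank factorisation
  let c : Matrix S S ℂ := fun α β => coeff (Finsupp.sumElim α.1 β.1) A'
  have hc : c.IsHermitian := by
    ext α β
    rw [Matrix.conjTranspose_apply]
    show star (coeff (Finsupp.sumElim β.1 α.1) A') = coeff (Finsupp.sumElim α.1 β.1) A'
    rw [← htau]
    conv_rhs => rw [coeff_tau]
    rw [htau]
    rfl
  obtain ⟨r, l, u, hl, hu, hcu⟩ := rank_fact c hc
  let e : Fin r → Pol n := fun i => ∑ α : S, monomial α.1 (u i α)
  have he : ∀ i (α : S), coeff α.1 (e i) = u i α := by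
    intro i α
    show coeff α.1 (∑ α : S, monomial α.1 (u i α)) = _
    rw [coeff_sum, Finset.sum_eq_single α]
    · rw [coeff_monomial, if_pos rfl]
    · intro β _ hβ
      rw [coeff_monomial, if_neg (fun h => hβ (Subtype.ext h))]
    · intro h; exact absurd (Finset.mem_univ _) h
  have hev : ∀ i (z : Fin n → ℂ), eval z (e i) = ∑ α : S, u i α * eval z (monomial α.1 1) := by
    intro i z
    show eval z (∑ α : S, monomial α.1 (u i α)) = _
    rw [map_sum]
    refine Finset.sum_congr rfl (fun α _ => ?_)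
    rw [eval_monomial, eval_monomial, one_mul]
  refine ⟨r, D, ⟨⟨P, e, Matrix.diagonal (fun i => (l i : ℂ)), ?_, ?_, ?_, ?_, ?_, ?_, ?_⟩⟩⟩
  · -- independence of `P`
    rw [Fintype.linearIndependent_iff]
    intro g hg
    have h1 : mm f (∑ j, g j • p j) = 0 := by
      rw [map_sum, ← hg]
      exact Finset.sum_congr rfl (fun j _ => by rw [map_smul])
    have h2 : (∑ j, g j • p j) = 0 := by
      refine mm_inj f _ ?_ h1
      refine (sh_inj i₁ i₂ h12 B).mono ?_
      intro α hα
      have hα' : coeff α (∑ j, g j • p j) ≠ 0 := mem_support_iff.1 hα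
      rw [coeff_sum] at hα'
      obtain ⟨j, _, hj⟩ := Finset.exists_ne_zero_of_sum_ne_zero hα'
      rw [coeff_smul] at hj
      exact hBp j α (mem_support_iff.2 (fun h => hj (by rw [h, smul_zero])))
    exact Fintype.linearIndependent_iff.1 hp g h2
  · -- independence of `e`
    rw [Fintype.linearIndependent_iff]
    intro g hg
    refine Fintype.linearIndependent_iff.1 hu g ?_
    ext α
    have h1 := congrArg (coeff α.1) hg
    rw [coeff_sum, coeff_zero] at h1
    rw [Finset.sum_apply, Pi.zero_apply, ← h1]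
    refine Finset.sum_congr rfl (fun i _ => ?_)
    rw [coeff_smul, he, Pi.smul_apply]
  · intro j
    rw [hD1]
    exact mm_hom f (p j) _ (fun α hα => sh_degree i₁ i₂ B α (hBp j α hα).le)
  · intro i
    refine IsHomogeneous.sum _ _ _ (fun α _ => ?_)
    exact isHomogeneous_monomial _ ((hSmem α.1).1 α.2)
  · ext i j
    rw [Matrix.conjTranspose_apply, Matrix.diagonal_apply, Matrix.diagonal_apply]
    by_cases h : i = j
    · subst h
      rw [if_pos rfl]
      exact Complex.conj_ofReal _
    · rw [if_neg h, if_neg (Ne.symm h), star_zero]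
  · rw [Matrix.det_diagonal]
    exact IsUnit.mk0 _ (Finset.prod_ne_zero_iff.2 (fun i _ => Complex.ofReal_ne_zero.2 (hl i)))
  · intro z w
    have h1 := congrArg (eval (Sum.elim z (fun k => (starRingEnd ℂ) (w k)))) hmain
    rw [map_mul, eval_xx, map_sum, eval_matrix S A' hsupp] at h1
    have h2 : ∀ α β : S, coeff (Finsupp.sumElim α.1 β.1) A' =
        ∑ i, (l i : ℂ) * u i α * star (u i β) := hcu
    simp only [eval_ren] at h1
    rw [h1]
    congr 1
    exact fact_sum c l u hcu e z w hev

end Pool.Agent.W2helper17.SOS
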