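import Pool.Agent.W2helper74.SOS.Stm4
import Pool.Agent.W2helper17.SOS.SetUp

/-!
# S1FULL, pieces P15 (`Mk`) and P16 (`Sub`)
-/

set_option autoImplicit false

open MvPolynomial

namespace Pool.Agent.W2helper17.SOS

open Pool.Agent.W2helper74.SOS

variable {n : ℕ}

/-! ### from points to functionals -/

theorem fun1 {I J : Type*} [Fintype I] [Fintype J] (c : I → ℂ) (f : I → Pol n) (c' : J → ℂ)
    (f' : J → Pol n) (h : ∀ z : Fin n → ℂ, ∑ i, c i * eval z (f i) = ∑ j, c' j * eval z (f' j))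
    (φ : Pol n →ₗ[ℂ] ℂ) : ∑ i, c i * φ (f i) = ∑ j, c' j * φ (f' j) := by
  have h1 : ∑ i, c i • f i = ∑ j, c' j • f' j := by
    apply MvPolynomial.funext
    intro z
    rw [map_sum, map_sum]
    simp only [smul_eval]
    exact h z
  have h2 := congrArg φ h1
  rw [map_sum, map_sum] at h2
  simpa only [map_smul, smul_eq_mul] using h2

theorem fun2 {I J : Type*} [Fintype I] [Fintype J] (c : I → ℂ) (f g : I → Pol n) (c' : J → ℂ)
    (f' g' : J → Pol n)
    (h : ∀ z w : Fin n → ℂ, ∑ i, c i * eval z (f i) * star (eval w (g i)) =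
      ∑ j, c' j * eval z (f' j) * star (eval w (g' j))) (φ ψ : Pol n →ₗ[ℂ] ℂ) :
    ∑ i, c i * φ (f i) * star (ψ (g i)) = ∑ j, c' j * φ (f' j) * star (ψ (g' j)) := by
  have h1 : ∀ w : Fin n → ℂ, ∑ i, c i * φ (f i) * star (eval w (g i)) =
      ∑ j, c' j * φ (f' j) * star (eval w (g' j)) := by
    intro w
    have h0 := fun1 (fun i => c i * star (eval w (g i))) f (fun j => c' j * star (eval w (g' j)))
      f' (by
        intro z
        have h1 := h z w
        calc _ = ∑ i, c i * eval z (f i) * star (eval w (g i)) :=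
              Finset.sum_congr rfl fun i _ => by ring
          _ = _ := h1
          _ = _ := Finset.sum_congr rfl fun i _ => by ring) φ
    calc _ = ∑ i, c i * star (eval w (g i)) * φ (f i) :=
          Finset.sum_congr rfl fun i _ => by ring
      _ = _ := h0
      _ = _ := Finset.sum_congr rfl fun i _ => by ring
  have h2 : ∀ w : Fin n → ℂ, ∑ i, star (c i * φ (f i)) * eval w (g i) =
      ∑ j, star (c' j * φ (f' j)) * eval w (g' j) := by
    intro w
    have h3 := congrArg star (h1 w)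
    rw [star_sum, star_sum] at h3
    simpa only [star_mul', star_star] using h3
  have h3 := congrArg star (fun1 _ g _ g' h2 ψ)
  rw [star_sum, star_sum] at h3
  simpa only [star_mul', star_star] using h3

/-- the value of the kernel with the matrix `c` -/
theorem fun2m {R R' : ℕ} (c : Matrix (Fin R) (Fin R) ℂ) (f : Fin R → Pol n)
    (c' : Matrix (Fin R') (Fin R') ℂ) (f' : Fin R' → Pol n)
    (h : ∀ z w : Fin n → ℂ, ∑ i, ∑ l, c i l * eval z (f i) * star (eval w (f l)) =
      ∑ i, ∑ l, c' i l * eval z (f' i) * star (eval w (f' l))) (φ ψ : Pol n →ₗ[ℂ] ℂ) :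
    ∑ i, ∑ l, c i l * φ (f i) * star (ψ (f l)) =
      ∑ i, ∑ l, c' i l * φ (f' i) * star (ψ (f' l)) := by
  have h1 := fun2 (fun p : Fin R × Fin R => c p.1 p.2) (fun p => f p.1) (fun p => f p.2)
    (fun p : Fin R' × Fin R' => c' p.1 p.2) (fun p => f' p.1) (fun p => f' p.2)
    (by
      intro z w
      rw [Fintype.sum_prod_type, Fintype.sum_prod_type]
      exact h z w) φ ψ
  rw [Fintype.sum_prod_type, Fintype.sum_prod_type] at h1
  exact h1

theorem mul_star_self_re (x : ℂ) : x * star x = ((‖x‖ ^ 2 : ℝ) : ℂ) := by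
  rw [Complex.ofReal_pow]
  exact Complex.mul_conj' x

/-! ### rank factorisation of a kernel -/

theorem swap4 {I L A B : Type*} [Fintype I] [Fintype L] [Fintype A] [Fintype B]
    (F : I → L → A → B → ℂ) :
    ∑ i, ∑ l, ∑ α, ∑ β, F i l α β = ∑ α, ∑ β, ∑ i, ∑ l, F i l α β := by
  calc _ = ∑ i, ∑ α, ∑ β, ∑ l, F i l α β := by
        refine Finset.sum_congr rfl fun i _ => ?_
        rw [Finset.sum_comm]
        refine Finset.sum_congr rfl fun α _ => ?_
        rw [Finset.sum_comm]
    _ = ∑ α, ∑ i, ∑ β, ∑ l, F i l α β := Finset.sum_comm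
    _ = _ := by
        refine Finset.sum_congr rfl fun α _ => ?_
        rw [Finset.sum_comm]

theorem bil1 {I A : Type*} [Fintype I] [Fintype A] (c : I → I → ℂ) (C : I → A → ℂ)
    (x y : A → ℂ) :
    ∑ i, ∑ l, c i l * (∑ α, C i α * x α) * star (∑ β, C l β * y β) =
      ∑ α, ∑ β, (∑ i, ∑ l, c i l * C i α * star (C l β)) * x α * star (y β) := by
  calc _ = ∑ i, ∑ l, ∑ α, ∑ β, c i l * C i α * star (C l β) * x α * star (y β) := by
        refine Finset.sum_congr rfl fun i _ => Finset.sum_congr rfl fun l _ => ?_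
        rw [star_sum, mul_assoc, Finset.sum_mul_sum, Finset.mul_sum]
        refine Finset.sum_congr rfl fun α _ => ?_
        rw [Finset.mul_sum]
        refine Finset.sum_congr rfl fun β _ => ?_
        rw [star_mul']
        ring
    _ = ∑ α, ∑ β, ∑ i, ∑ l, c i l * C i α * star (C l β) * x α * star (y β) := swap4 _
    _ = _ := by
        refine Finset.sum_congr rfl fun α _ => Finset.sum_congr rfl fun β _ => ?_
        rw [mul_assoc, Finset.sum_mul]
        refine Finset.sum_congr rfl fun i _ => ?_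
        rw [Finset.sum_mul]
        exact Finset.sum_congr rfl fun l _ => by ring

theorem bil2 {I A : Type*} [Fintype I] [Fintype A] (l : I → ℂ) (C : I → A → ℂ)
    (x y : A → ℂ) :
    ∑ i, l i * (∑ α, C i α * x α) * star (∑ β, C i β * y β) =
      ∑ α, ∑ β, (∑ i, l i * C i α * star (C i β)) * x α * star (y β) := by
  calc _ = ∑ i, ∑ α, ∑ β, l i * C i α * star (C i β) * x α * star (y β) := by
        refine Finset.sum_congr rfl fun i _ => ?_
        rw [star_sum, mul_assoc, Finset.sum_mul_sum, Finset.mul_sum]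
        refine Finset.sum_congr rfl fun α _ => ?_
        rw [Finset.mul_sum]
        refine Finset.sum_congr rfl fun β _ => ?_
        rw [star_mul']
        ring
    _ = ∑ α, ∑ β, ∑ i, l i * C i α * star (C i β) * x α * star (y β) := by
        rw [Finset.sum_comm]
        refine Finset.sum_congr rfl fun α _ => ?_
        rw [Finset.sum_comm]
    _ = _ := by
        refine Finset.sum_congr rfl fun α _ => Finset.sum_congr rfl fun β _ => ?_
        rw [mul_assoc, Finset.sum_mul]
        exact Finset.sum_congr rfl fun i _ => by ring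

theorem span_hom {R N : ℕ} {f : Fin R → Pol n} (hf : ∀ i, (f i).IsHomogeneous N) {p : Pol n}
    (hp : p ∈ Submodule.span ℂ (Set.range f)) : p.IsHomogeneous N := by
  have h1 : Submodule.span ℂ (Set.range f) ≤ homogeneousSubmodule (Fin n) ℂ N := by
    rw [Submodule.span_le]
    rintro _ ⟨i, rfl⟩
    exact (mem_homogeneousSubmodule N _).2 (hf i)
  exact (mem_homogeneousSubmodule N _).1 (h1 hp)

theorem kernel_fact {R N : ℕ} (f : Fin R → Pol n) (hf : ∀ i, (f i).IsHomogeneous N)
    (c : Matrix (Fin R) (Fin R) ℂ) (hc : c.IsHermitian) :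
    ∃ (r : ℕ) (l : Fin r → ℝ) (e : Fin r → Pol n), (∀ i, l i ≠ 0) ∧ LinearIndependent ℂ e ∧
      (∀ i, (e i).IsHomogeneous N) ∧ (∀ i, e i ∈ Submodule.span ℂ (Set.range f)) ∧
      ∀ z w : Fin n → ℂ, ∑ i, ∑ l, c i l * eval z (f i) * star (eval w (f l)) =
        ∑ i, (l i : ℂ) * eval z (e i) * star (eval w (e i)) := by
  classical
  set W : Submodule ℂ (Pol n) := Submodule.span ℂ (Set.range f) with hW
  have : Module.Finite ℂ W := Module.Finite.span_of_finite ℂ (Set.finite_range f)
  set b := Module.finBasis ℂ W with hb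
  have hmem : ∀ i, f i ∈ W := fun i => Submodule.subset_span ⟨i, rfl⟩
  set C : Fin R → Fin (Module.finrank ℂ W) → ℂ := fun i α => b.repr ⟨f i, hmem i⟩ α with hC
  have hfb : ∀ i, f i = ∑ α, C i α • (b α : Pol n) := by
    intro i
    have h1 := congrArg (Submodule.subtype W) (b.sum_repr ⟨f i, hmem i⟩)
    rw [map_sum] at h1
    simp only [map_smul, Submodule.subtype_apply] at h1
    exact h1.symm
  have hfe : ∀ i (z : Fin n → ℂ), eval z (f i) = ∑ α, C i α * eval z (b α : Pol n) := by
    intro i z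
    conv_lhs => rw [hfb i, map_sum]
    simp only [smul_eval]
  set c' : Matrix (Fin (Module.finrank ℂ W)) (Fin (Module.finrank ℂ W)) ℂ := fun α β =>
    ∑ i, ∑ l, c i l * C i α * star (C l β) with hc'
  have hherm : c'.IsHermitian := by
    ext α β
    rw [Matrix.conjTranspose_apply]
    show star (∑ i, ∑ l, c i l * C i β * star (C l α)) = ∑ i, ∑ l, c i l * C i α * star (C l β)
    rw [star_sum]
    simp_rw [star_sum]
    rw [Finset.sum_comm]
    refine Finset.sum_congr rfl fun i _ => Finset.sum_congr rfl fun l _ => ?_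
    rw [star_mul', star_mul', star_star, hc.apply i l]
    ring
  obtain ⟨r, l, u, hl, hu, hcu⟩ := rank_fact c' hherm
  set e : Fin r → Pol n := fun k => W.subtype (b.equivFun.symm (u k)) with he
  have hee : ∀ k (z : Fin n → ℂ), eval z (e k) = ∑ α, u k α * eval z (b α : Pol n) := by
    intro k z
    show eval z (W.subtype (b.equivFun.symm (u k))) = _
    rw [Module.Basis.equivFun_symm_apply, map_sum, map_sum]
    simp only [map_smul, Submodule.subtype_apply, smul_eval]
  refine ⟨r, l, e, hl, ?_, fun i => span_hom hf (b.equivFun.symm (u i)).2,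
    fun i => (b.equivFun.symm (u i)).2, fun z w => ?_⟩
  · have h1 := hu.map' (W.subtype ∘ₗ b.equivFun.symm.toLinearMap) (by
      rw [LinearMap.ker_eq_bot]
      exact W.injective_subtype.comp b.equivFun.symm.injective)
    exact h1
  · simp only [hfe, hee]
    have b1 := bil1 (fun i l => c i l) C (fun α => eval z (b α : Pol n))
      (fun α => eval w (b α : Pol n))
    have b2 := bil2 (fun i => (l i : ℂ)) u (fun α => eval z (b α : Pol n))
      (fun α => eval w (b α : Pol n))
    refine (b1.trans ?_).trans b2.symm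
    refine Finset.sum_congr rfl fun α _ => Finset.sum_congr rfl fun β _ => ?_
    have h1 : ∑ i, ∑ l, c i l * C i α * star (C l β) = c' α β := rfl
    rw [h1, hcu α β]

theorem exists_dual {m : ℕ} {e : Fin m → Pol n} (he : LinearIndependent ℂ e) (x : Fin m → ℂ) :
    ∃ φ : Pol n →ₗ[ℂ] ℂ, ∀ i, φ (e i) = x i := by
  classical
  obtain ⟨φ, hφ⟩ := LinearMap.exists_extend ((Module.Basis.span he).constr ℂ x)
  refine ⟨φ, fun i => ?_⟩
  have h1 := congrArg (fun g => g (Module.Basis.span he i)) hφ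
  simp only [LinearMap.comp_apply, Submodule.subtype_apply, Module.Basis.constr_basis] at h1
  rw [Module.Basis.span_apply] at h1
  exact h1

theorem mk : Mk := by
  classical
  intro n D M R q f c hn hc hq hf hmain
  -- the side of the squares
  obtain ⟨m, lp, p, hlp, hp, hph, hps, hpe⟩ := kernel_fact q hq 1 (by
    exact Matrix.isHermitian_one)
  have hone : ∀ z w : Fin n → ℂ, ∑ j, (1 : ℂ) * eval z (q j) * star (eval w (q j)) =
      ∑ i, (lp i : ℂ) * eval z (p i) * star (eval w (p i)) := by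
    intro z w
    rw [← hpe z w]
    refine Finset.sum_congr rfl fun j _ => ?_
    rw [Finset.sum_eq_single j]
    · rw [Matrix.one_apply_eq]
    · intro l _ hl
      rw [Matrix.one_apply_ne (Ne.symm hl), zero_mul, zero_mul]
    · intro h; exact absurd (Finset.mem_univ _) h
  have hfun := fun φ : Pol n →ₗ[ℂ] ℂ => fun2 _ _ _ _ _ _ hone φ φ
  have hfun' : ∀ φ : Pol n →ₗ[ℂ] ℂ, ∑ j, ‖φ (q j)‖ ^ 2 = ∑ i, lp i * ‖φ (p i)‖ ^ 2 := by
    intro φ
    have h1 := hfun φ
    simp only [one_mul, mul_assoc, mul_star_self_re] at h1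
    exact_mod_cast h1
  have hpos : ∀ i, 0 < lp i := by
    intro i
    obtain ⟨φ, hφ⟩ := exists_dual hp (Pi.single i 1)
    have h1 := hfun' φ
    rw [Finset.sum_eq_single i (f := fun i => lp i * ‖φ (p i)‖ ^ 2) (by
      intro k _ hk
      rw [hφ k, Pi.single_eq_of_ne hk]
      simp) (fun h => absurd (Finset.mem_univ _) h)] at h1
    rw [hφ i, Pi.single_eq_same] at h1
    simp only [norm_one, one_pow, mul_one] at h1
    have h2 : 0 ≤ lp i := by
      rw [← h1]
      exact Finset.sum_nonneg fun _ _ => sq_nonneg _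
    exact lt_of_le_of_ne h2 (Ne.symm (hlp i))
  have hspan : Submodule.span ℂ (Set.range p) = Submodule.span ℂ (Set.range q) := by
    apply le_antisymm
    · rw [Submodule.span_le]
      rintro _ ⟨i, rfl⟩
      exact hps i
    · rw [Submodule.span_le]
      rintro _ ⟨j, rfl⟩
      by_contra hcon
      obtain ⟨φ, hφ1, hφ2⟩ := Submodule.exists_le_ker_of_notMem hcon
      have h1 := hfun' φ
      rw [Finset.sum_eq_zero (f := fun i => lp i * ‖φ (p i)‖ ^ 2) (by
        intro i _
        have : φ (p i) = 0 := hφ2 (Submodule.subset_span ⟨i, rfl⟩)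
        rw [this]
        simp)] at h1
      have h2 := (Finset.sum_eq_zero_iff_of_nonneg (fun _ _ => sq_nonneg _)).1 h1 j
        (Finset.mem_univ _)
      apply hφ1
      simpa using h2
  -- the other side
  obtain ⟨r, l, e, hl, he, heh, _, hee⟩ := kernel_fact f hf c hc
  set P : Fin m → Pol n := fun i => ((Real.sqrt (lp i) : ℝ) : ℂ) • p i with hP
  have hs : ∀ i, ((Real.sqrt (lp i) : ℝ) : ℂ) ≠ 0 := fun i =>
    Complex.ofReal_ne_zero.2 (Real.sqrt_pos.2 (hpos i)).ne'
  have hPspan : Submodule.span ℂ (Set.range P) = Submodule.span ℂ (Set.range p) := by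
    apply le_antisymm
    · rw [Submodule.span_le]
      rintro _ ⟨i, rfl⟩
      exact Submodule.smul_mem _ _ (Submodule.subset_span ⟨i, rfl⟩)
    · rw [Submodule.span_le]
      rintro _ ⟨i, rfl⟩
      have : p i = (((Real.sqrt (lp i) : ℝ) : ℂ))⁻¹ • P i := by
        show p i = (((Real.sqrt (lp i) : ℝ) : ℂ))⁻¹ • (((Real.sqrt (lp i) : ℝ) : ℂ) • p i)
        rw [smul_smul, inv_mul_cancel₀ (hs i), one_smul]
      rw [this]
      exact Submodule.smul_mem _ _ (Submodule.subset_span ⟨i, rfl⟩)
  have hPind : LinearIndependent ℂ P := by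
    have h1 := hp.units_smul (fun i => Units.mk0 _ (hs i))
    exact h1
  have hdiag : ∀ z w : Fin n → ℂ, ∑ i, ∑ k, Matrix.diagonal (fun i => (l i : ℂ)) i k *
      eval z (e i) * star (eval w (e k)) = ∑ i, (l i : ℂ) * eval z (e i) * star (eval w (e i)) := by
    intro z w
    refine Finset.sum_congr rfl fun i _ => ?_
    rw [Finset.sum_eq_single i]
    · rw [Matrix.diagonal_apply_eq]
    · intro k _ hk
      rw [Matrix.diagonal_apply_ne _ (Ne.symm hk), zero_mul, zero_mul]
    · intro h; exact absurd (Finset.mem_univ _) h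
  refine ⟨m, r, ⟨P, e, Matrix.diagonal (fun i => (l i : ℂ)), hPind, he, ?_, heh, ?_, ?_, ?_⟩,
    ?_, ?_, ?_⟩
  · intro j
    exact (mem_homogeneousSubmodule _ _).1 (Submodule.smul_mem _ _
      ((mem_homogeneousSubmodule _ _).2 (hph j)))
  · ext i j
    rw [Matrix.conjTranspose_apply, Matrix.diagonal_apply, Matrix.diagonal_apply]
    by_cases h : i = j
    · subst h
      rw [if_pos rfl]
      exact Complex.conj_ofReal _
    · rw [if_neg h, if_neg (Ne.symm h), star_zero]
  · rw [Matrix.det_diagonal]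
    exact IsUnit.mk0 _ (Finset.prod_ne_zero_iff.2 (fun i _ => Complex.ofReal_ne_zero.2 (hl i)))
  · intro z w
    have h1 : ∑ j, eval z (P j) * star (eval w (P j)) =
        ∑ j, eval z (q j) * star (eval w (q j)) := by
      have h2 := hone z w
      simp only [one_mul] at h2
      rw [h2]
      refine Finset.sum_congr rfl fun j _ => ?_
      show eval z (((Real.sqrt (lp j) : ℝ) : ℂ) • p j) *
        star (eval w (((Real.sqrt (lp j) : ℝ) : ℂ) • p j)) = _
      rw [smul_eval, smul_eval, star_mul']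
      have h3 : star (((Real.sqrt (lp j) : ℝ) : ℂ)) = ((Real.sqrt (lp j) : ℝ) : ℂ) :=
        Complex.conj_ofReal _
      have h4 : ((Real.sqrt (lp j) : ℝ) : ℂ) * ((Real.sqrt (lp j) : ℝ) : ℂ) = (lp j : ℂ) := by
        rw [← Complex.ofReal_mul, Real.mul_self_sqrt (hpos j).le]
      rw [h3]
      linear_combination (eval z (p j) * star (eval w (p j))) * h4
    rw [h1, hmain z w, hee z w, hdiag z w]
  · rw [← hspan, finrank_span_eq_card hp, Fintype.card_fin]
  · show Submodule.span ℂ (Set.range P) = _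
    rw [hPspan, hspan]
  · intro z w
    exact (hdiag z w).trans (hee z w).symm

/-! ### subtraction -/

theorem spec {I : Type*} [Fintype I] [DecidableEq I] (c : Matrix I I ℂ) (hc : c.IsHermitian) :
    ∃ (μ : I → ℝ) (U : I → I → ℂ), (∀ α β, c α β = ∑ k, (μ k : ℂ) * U k α * star (U k β)) ∧
      (∀ α β, (∑ k, U k α * star (U k β)) = if α = β then 1 else 0) := by
  refine ⟨hc.eigenvalues, fun k α => (hc.eigenvectorUnitary : Matrix I I ℂ) α k, ?_, ?_⟩
  · intro α β
    conv_lhs => rw [hc.spectral_theorem]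
    rw [Unitary.conjStarAlgAut_apply, Matrix.mul_apply]
    refine Finset.sum_congr rfl (fun k _ => ?_)
    rw [Matrix.mul_diagonal, Matrix.star_apply]
    simp only [Function.comp_apply]
    rw [mul_comm ((hc.eigenvectorUnitary : Matrix I I ℂ) α k)]
    rfl
  · intro α β
    have h1 : (hc.eigenvectorUnitary : Matrix I I ℂ) * star (hc.eigenvectorUnitary : Matrix I I ℂ) =
        1 := Unitary.mul_star_self_of_mem hc.eigenvectorUnitary.2
    have h2 := congrFun (congrFun h1 α) β
    rw [Matrix.mul_apply, Matrix.one_apply] at h2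
    exact h2

theorem sub : Sub := by
  classical
  intro n m r D d g hn hg hgh hX
  -- the coefficients of `X_k g`
  have hex : ∀ k, ∃ B : Fin m → ℂ, ∑ j, B j • d.p j = X k * g := fun k =>
    (Submodule.mem_span_range_iff_exists_fun ℂ).1 (hX k)
  choose B hB using hex
  set H : Matrix (Fin m) (Fin m) ℂ := fun j l => ∑ k, B k j * star (B k l) with hH
  have hherm : H.IsHermitian := by
    ext j l
    rw [Matrix.conjTranspose_apply]
    show star (∑ k, B k l * star (B k j)) = ∑ k, B k j * star (B k l)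
    rw [star_sum]
    refine Finset.sum_congr rfl fun k _ => ?_
    rw [star_mul', star_star]
    ring
  obtain ⟨μ, U, hμ, hU⟩ := spec H hherm
  set p' : Fin m → Pol n := fun k => ∑ α, U k α • d.p α with hp'
  have hp'e : ∀ k (z : Fin n → ℂ), eval z (p' k) = ∑ α, U k α * eval z (d.p α) := by
    intro k z
    show eval z (∑ α, U k α • d.p α) = _
    rw [map_sum]
    simp only [smul_eval]
  -- simultaneous diagonalisation
  have hP : ∀ z w : Fin n → ℂ, ∑ k, eval z (p' k) * star (eval w (p' k)) =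
      ∑ j, eval z (d.p j) * star (eval w (d.p j)) := by
    intro z w
    have b2 := bil2 (fun _ : Fin m => (1 : ℂ)) U (fun α => eval z (d.p α)) (fun α => eval w (d.p α))
    simp only [one_mul, hU] at b2
    simp only [hp'e]
    rw [b2]
    refine Finset.sum_congr rfl fun α _ => ?_
    simp only [ite_mul, one_mul, zero_mul, Finset.sum_ite_eq, Finset.mem_univ, if_true]
  have hXe : ∀ k (z : Fin n → ℂ), z k * eval z g = ∑ j, B k j * eval z (d.p j) := by
    intro k z
    have h1 := congrArg (eval z) (hB k)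
    rw [map_sum, map_mul, eval_X] at h1
    simp only [smul_eval] at h1
    exact h1.symm
  have hQ : ∀ z w : Fin n → ℂ, ∑ k, (μ k : ℂ) * eval z (p' k) * star (eval w (p' k)) =
      (∑ k, z k * star (w k)) * (eval z g * star (eval w g)) := by
    intro z w
    have b2 := bil2 (fun k : Fin m => (μ k : ℂ)) U (fun α => eval z (d.p α))
      (fun α => eval w (d.p α))
    have b3 := bil2 (fun _ : Fin n => (1 : ℂ)) B (fun α => eval z (d.p α))
      (fun α => eval w (d.p α))
    simp only [hp'e]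
    rw [b2]
    simp only [one_mul, ← hXe] at b3
    have h1 : (∑ k, z k * star (w k)) * (eval z g * star (eval w g)) =
        ∑ k, z k * eval z g * star (w k * eval w g) := by
      rw [Finset.sum_mul]
      refine Finset.sum_congr rfl fun k _ => ?_
      rw [star_mul']
      ring
    rw [h1, b3]
    refine Finset.sum_congr rfl fun α _ => Finset.sum_congr rfl fun β _ => ?_
    rw [← hμ α β]
  have hPφ : ∀ φ : Pol n →ₗ[ℂ] ℂ, ∑ k, ‖φ (p' k)‖ ^ 2 = ∑ j, ‖φ (d.p j)‖ ^ 2 := by
    intro φ
    have h1 := fun2 (fun _ => (1 : ℂ)) p' p' (fun _ => (1 : ℂ)) d.p d.p (by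
      intro z w
      simp only [one_mul]
      exact hP z w) φ φ
    simp only [one_mul, mul_star_self_re] at h1
    exact_mod_cast h1
  have hQφ : ∀ φ : Pol n →ₗ[ℂ] ℂ, ∑ k, μ k * ‖φ (p' k)‖ ^ 2 = ∑ k, ‖φ (X k * g)‖ ^ 2 := by
    intro φ
    have h1 := fun2 (fun k => (μ k : ℂ)) p' p' (fun _ => (1 : ℂ)) (fun k => X k * g)
      (fun k => X k * g) (by
      intro z w
      rw [hQ z w, Finset.sum_mul]
      refine Finset.sum_congr rfl fun k _ => ?_
      rw [map_mul, map_mul, eval_X, eval_X, star_mul']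
      ring) φ φ
    simp only [one_mul, mul_assoc, mul_star_self_re] at h1
    exact_mod_cast h1
  -- the largest eigenvalue
  obtain ⟨k₁, hk₁⟩ : ∃ k, 0 < μ k := by
    have hne : X (⟨0, hn⟩ : Fin n) * g ∉ (⊥ : Submodule ℂ (Pol n)) := by
      rw [Submodule.mem_bot]
      exact mul_ne_zero (X_ne_zero _) hg
    obtain ⟨φ, hφ, _⟩ := Submodule.exists_le_ker_of_notMem hne
    by_contra hcon
    push Not at hcon
    have h1 := hQφ φ
    have h2 : ∑ k, μ k * ‖φ (p' k)‖ ^ 2 ≤ 0 := Finset.sum_nonpos fun k _ =>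
      mul_nonpos_of_nonpos_of_nonneg (hcon k) (sq_nonneg _)
    have h3 : ‖φ (X (⟨0, hn⟩ : Fin n) * g)‖ ^ 2 ≤ ∑ k, ‖φ (X k * g)‖ ^ 2 :=
      Finset.single_le_sum (f := fun k => ‖φ (X k * g)‖ ^ 2) (fun _ _ => sq_nonneg _)
        (Finset.mem_univ _)
    have h4 : 0 < ‖φ (X (⟨0, hn⟩ : Fin n) * g)‖ ^ 2 := by
      have := norm_pos_iff.2 hφ
      positivity
    linarith
  have : Nonempty (Fin m) := ⟨k₁⟩
  obtain ⟨i₀, hi₀⟩ := Finite.exists_max μ
  have hμ0 : 0 < μ i₀ := lt_of_lt_of_le hk₁ (hi₀ k₁)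
  set ν : Fin m → ℝ := fun k => 1 - μ k / μ i₀ with hν
  have hν0 : ∀ k, 0 ≤ ν k := by
    intro k
    have : μ k / μ i₀ ≤ 1 := (div_le_one hμ0).2 (hi₀ k)
    show 0 ≤ 1 - μ k / μ i₀
    linarith
  have hνi : ν i₀ = 0 := by
    show 1 - μ i₀ / μ i₀ = 0
    rw [div_self hμ0.ne', sub_self]
  set q : Fin m → Pol n := fun k => ((Real.sqrt (ν k) : ℝ) : ℂ) • p' k with hq
  have hsq : ∀ k, ((Real.sqrt (ν k) : ℝ) : ℂ) * ((Real.sqrt (ν k) : ℝ) : ℂ) = (ν k : ℂ) := by
    intro k
    rw [← Complex.ofReal_mul, Real.mul_self_sqrt (hν0 k)]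
  have hqi : q i₀ = 0 := by
    show ((Real.sqrt (ν i₀) : ℝ) : ℂ) • p' i₀ = 0
    rw [hνi, Real.sqrt_zero, Complex.ofReal_zero, zero_smul]
  have hμc : (μ i₀ : ℂ) ≠ 0 := Complex.ofReal_ne_zero.2 hμ0.ne'
  have hqe : ∀ z w : Fin n → ℂ, ∑ k, eval z (q k) * star (eval w (q k)) =
      ∑ j, eval z (d.p j) * star (eval w (d.p j)) - (1 / (μ i₀ : ℂ)) *
        ((∑ k, z k * star (w k)) * (eval z g * star (eval w g))) := by
    intro z w
    rw [← hQ z w, ← hP z w, Finset.mul_sum, ← Finset.sum_sub_distrib]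
    refine Finset.sum_congr rfl fun k _ => ?_
    show eval z (((Real.sqrt (ν k) : ℝ) : ℂ) • p' k) *
      star (eval w (((Real.sqrt (ν k) : ℝ) : ℂ) • p' k)) = _
    rw [smul_eval, smul_eval, star_mul']
    have h3 : star (((Real.sqrt (ν k) : ℝ) : ℂ)) = ((Real.sqrt (ν k) : ℝ) : ℂ) :=
      Complex.conj_ofReal _
    have h4 : (ν k : ℂ) = 1 - (μ k : ℂ) / μ i₀ := by
      show ((1 - μ k / μ i₀ : ℝ) : ℂ) = _
      push_cast
      ring
    rw [h3]
    have h5 := hsq k
    rw [h4] at h5
    linear_combination (eval z (p' k) * star (eval w (p' k))) * h5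
  have hqφ : ∀ φ : Pol n →ₗ[ℂ] ℂ, ∑ k, ‖φ (q k)‖ ^ 2 =
      ∑ j, ‖φ (d.p j)‖ ^ 2 - (1 / μ i₀) * ∑ k, ‖φ (X k * g)‖ ^ 2 := by
    intro φ
    rw [← hQφ φ, ← hPφ φ, Finset.mul_sum, ← Finset.sum_sub_distrib]
    refine Finset.sum_congr rfl fun k _ => ?_
    show ‖φ (((Real.sqrt (ν k) : ℝ) : ℂ) • p' k)‖ ^ 2 = _
    rw [map_smul, smul_eq_mul, norm_mul, mul_pow, Complex.norm_real, Real.norm_eq_abs, sq_abs,
      Real.sq_sqrt (hν0 k)]
    show (1 - μ k / μ i₀) * _ = _
    ring
  have hp'h : ∀ k, (p' k).IsHomogeneous (D + 1) := fun k => span_hom d.p_hom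
    (Submodule.sum_mem _ fun α _ => Submodule.smul_mem _ _ (Submodule.subset_span ⟨α, rfl⟩))
  have hqh : ∀ k, (q k).IsHomogeneous (D + 1) := fun k =>
    (mem_homogeneousSubmodule _ _).1 (Submodule.smul_mem _ _
      ((mem_homogeneousSubmodule _ _).2 (hp'h k)))
  -- the new form
  set f : Fin (r + 1) → Pol n := Fin.cons g d.e with hf
  set c : Matrix (Fin (r + 1)) (Fin (r + 1)) ℂ := fun i l =>
    Fin.cases (motive := fun _ => ℂ)
      (Fin.cases (motive := fun _ => ℂ) (-(1 / (μ i₀ : ℂ))) (fun _ => 0) l)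
      (fun i' => Fin.cases (motive := fun _ => ℂ) 0 (fun l' => d.a i' l') l) i with hc
  have hc00 : c 0 0 = -(1 / (μ i₀ : ℂ)) := rfl
  have hc0s : ∀ l : Fin r, c 0 l.succ = 0 := fun l => rfl
  have hcs0 : ∀ i : Fin r, c i.succ 0 = 0 := fun i => rfl
  have hcss : ∀ i l : Fin r, c i.succ l.succ = d.a i l := fun i l => rfl
  have hf0 : f 0 = g := rfl
  have hfs : ∀ i : Fin r, f i.succ = d.e i := fun i => rfl
  have hcsum : ∀ (x y : Fin (r + 1) → ℂ), ∑ i, ∑ l, c i l * x i * star (y l) =
      -(1 / (μ i₀ : ℂ)) * x 0 * star (y 0) +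
        ∑ i, ∑ l, d.a i l * x (Fin.succ i) * star (y (Fin.succ l)) := by
    intro x y
    rw [Fin.sum_univ_succ, Fin.sum_univ_succ, hc00]
    simp only [hc0s, zero_mul, Finset.sum_const_zero, add_zero]
    congr 1
    refine Finset.sum_congr rfl fun i _ => ?_
    rw [Fin.sum_univ_succ, hcs0, zero_mul, zero_mul, zero_add]
    refine Finset.sum_congr rfl fun l _ => ?_
    rw [hcss]
  obtain ⟨m', r', d', hm', hV', hK⟩ := mk n D m (r + 1) q f c hn (by
    ext i l
    rw [Matrix.conjTranspose_apply]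
    refine Fin.cases ?_ (fun i' => ?_) i <;> refine Fin.cases ?_ (fun l' => ?_) l
    · rw [hc00, star_neg, ← Complex.ofReal_one, ← Complex.ofReal_div]
      congr 1
      exact Complex.conj_ofReal _
    · rw [hc0s, hcs0, star_zero]
    · rw [hc0s, hcs0, star_zero]
    · rw [hcss, hcss]
      exact d.a_herm.apply i' l') hqh (by
    intro i
    refine Fin.cases ?_ (fun i' => ?_) i
    · exact hgh
    · exact d.e_hom i') (by
    intro z w
    rw [hqe z w, d.main z w, hcsum (fun i => eval z (f i)) (fun i => eval w (f i)), hf0]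
    simp only [hfs]
    ring)
  have hV'q : d'.V = Submodule.span ℂ (Set.range q) := hV'
  have hle1 : d'.V ≤ d.V := by
    rw [hV'q, Submodule.span_le]
    rintro _ ⟨k, rfl⟩
    exact Submodule.smul_mem _ _ (Submodule.sum_mem _ fun α _ =>
      Submodule.smul_mem _ _ (Submodule.subset_span ⟨α, rfl⟩))
  have hle2 : d.V ≤ d'.V ⊔ Submodule.span ℂ (Set.range fun k => X k * g) := by
    unfold Dat.V
    rw [Submodule.span_le]
    rintro _ ⟨j, rfl⟩
    by_contra hcon
    obtain ⟨φ, hφ1, hφ2⟩ := Submodule.exists_le_ker_of_notMem hcon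
    have hφq : ∀ k, φ (q k) = 0 := fun k => hφ2 (Submodule.mem_sup_left (by
      have h1 : q k ∈ d'.V := by rw [hV'q]; exact Submodule.subset_span ⟨k, rfl⟩
      exact h1))
    have hφX : ∀ k, φ (X k * g) = 0 := fun k =>
      hφ2 (Submodule.mem_sup_right (Submodule.subset_span ⟨k, rfl⟩))
    have h1 := hqφ φ
    simp only [hφq, hφX, norm_zero, ne_eq, OfNat.ofNat_ne_zero, not_false_eq_true, zero_pow,
      Finset.sum_const_zero, mul_zero, sub_zero] at h1
    have h2 := (Finset.sum_eq_zero_iff_of_nonneg (fun _ _ => sq_nonneg _)).1 h1.symm j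
      (Finset.mem_univ _)
    apply hφ1
    simpa using h2
  have : Module.Finite ℂ (Submodule.span ℂ (Set.range fun k : Fin n => X k * g)) :=
    Module.Finite.span_of_finite ℂ (Set.finite_range _)
  have : Module.Finite ℂ d'.V := Module.Finite.span_of_finite ℂ (Set.finite_range _)
  refine ⟨m', r', d', ?_, ?_, hle1, hle2, ?_⟩
  · have h1 : (Set.range q).finrank ℂ ≤ Fintype.card (Fin m) := finrank_range_le_card q
    rw [Fintype.card_fin] at h1
    have h2 : m' = (Set.range q).finrank ℂ := hm'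
    rw [h2]
    refine lt_of_le_of_ne h1 fun h3 => ?_
    have h4 : LinearIndependent ℂ q :=
      linearIndependent_iff_card_eq_finrank_span.2 (by rw [Fintype.card_fin, h3])
    exact h4.ne_zero i₀ hqi
  · have h1 : Module.finrank ℂ d.V = m := by
      unfold Dat.V
      rw [finrank_span_eq_card d.p_ind, Fintype.card_fin]
    have h2 := Submodule.finrank_mono hle2
    have h3 := Submodule.finrank_add_le_finrank_add_finrank d'.V
      (Submodule.span ℂ (Set.range fun k : Fin n => X k * g))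
    have h4 : Module.finrank ℂ (Submodule.span ℂ (Set.range fun k : Fin n => X k * g)) ≤ n := by
      have h5 : (Set.range fun k : Fin n => X k * g).finrank ℂ ≤ Fintype.card (Fin n) :=
        finrank_range_le_card _
      rw [Fintype.card_fin] at h5
      exact h5
    have h6 : Module.finrank ℂ d'.V = m' := by rw [hV'q, hm']
    have h7 := h2.trans h3
    rw [h1, h6] at h7
    exact h7.trans (Nat.add_le_add_left h4 _)
  · intro hpsd x
    obtain ⟨φ, hφ⟩ := exists_dual d.e_ind x
    have h1 := fun2m d'.a d'.e c f hK φ φ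
    rw [hcsum (fun i => φ (f i)) (fun i => φ (f i)), hf0] at h1
    simp only [hfs, hφ] at h1
    have h2 := hpsd (fun i => φ (d'.e i))
    rw [h1, Complex.add_re] at h2
    have h3 : (-(1 / (μ i₀ : ℂ)) * φ g * star (φ g)).re = -(1 / μ i₀ * ‖φ g‖ ^ 2) := by
      rw [mul_assoc, mul_star_self_re, ← Complex.ofReal_one, ← Complex.ofReal_div,
        ← Complex.ofReal_neg, ← Complex.ofReal_mul, Complex.ofReal_re]
      ring
    rw [h3] at h2
    have h4 : 0 ≤ 1 / μ i₀ * ‖φ g‖ ^ 2 := by positivity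
    linarith

end Pool.Agent.W2helper17.SOS
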