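import Pool.Agent.W2helper17.SOS.SetUp
import Pool.Agent.W2helper74.SOS.Stm3

/-!
# MP_ce7760_an, piece `SetUp2` (helper17): the set up with the transfer of the SOS property
-/

open MvPolynomial

namespace Pool.Agent.W2helper17.SOS

open Pool.Agent.W2helper74.SOS

theorem sh'_inj {n : ℕ} (i₁ i₂ : Fin n) (h12 : i₁ ≠ i₂) (B : ℕ) :
    Set.InjOn (sh' i₁ i₂ B) {α | α.degree < B} := by
  intro α hα β hβ h
  simp only [Set.mem_setOf_eq] at hα hβ
  have h1 := DFunLike.congr_fun h i₁
  simp only [sh', Finsupp.add_apply, Finsupp.single_eq_same] at h1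
  rw [Finsupp.single_apply, Finsupp.single_apply, if_neg h12.symm, if_neg h12.symm] at h1
  have ha : α i₁ ≤ α.degree := Finsupp.le_degree i₁ α
  have hb : β i₁ ≤ β.degree := Finsupp.le_degree i₁ β
  have hd : α.degree = β.degree := by
    have e1 : (α i₁ + B * (α.degree + 1)) / B = α.degree + 1 := by
      rw [Nat.add_mul_div_left _ _ (by omega), Nat.div_eq_of_lt (by omega), zero_add]
    have e2 : (β i₁ + B * (β.degree + 1)) / B = β.degree + 1 := by
      rw [Nat.add_mul_div_left _ _ (by omega), Nat.div_eq_of_lt (by omega), zero_add]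
    have e3 : α.degree + 1 = β.degree + 1 := by
      rw [← e1, ← e2]
      congr 1
    omega
  rw [sh', sh', hd] at h
  exact add_right_cancel (add_right_cancel h)

theorem setUp2 : SetUp2 := by
  classical
  intro n m hn hm p A hp hA
  -- polarisation
  have hpol : (∑ j, rename Sum.inl (p j) * rename Sum.inr (map (starRingEnd ℂ) (p j)) :
      MvPolynomial (Fin n ⊕ Fin n) ℂ) = (∑ k : Fin n, X (Sum.inl k) * X (Sum.inr k)) * A := by
    rw [← sub_eq_zero]
    apply H402.CE.t3
    intro z
    rw [map_sub, map_mul, eval_xx, map_sum, sub_eq_zero]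
    have h := hA z
    convert h using 1
    · push_cast
      refine Finset.sum_congr rfl (fun j _ => ?_)
      rw [eval_ren]
      exact Complex.mul_conj' _
    · congr 1
      push_cast
      exact Finset.sum_congr rfl (fun k _ => Complex.mul_conj' _)
  -- bound of the degrees
  obtain ⟨B, hB1, hBp, hBA⟩ : ∃ B : ℕ, 1 ≤ B ∧ (∀ j, ∀ α ∈ (p j).support, α.degree < B) ∧
      ∀ α β, Finsupp.sumElim α β ∈ A.support → α.degree < B ∧ β.degree < B := by
    refine ⟨(∑ j, (p j).totalDegree) + A.totalDegree + 1, by omega, ?_, ?_⟩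
    · intro j α hα
      have h1 : α.degree ≤ (p j).totalDegree := le_totalDegree hα
      have h2 : (p j).totalDegree ≤ ∑ j, (p j).totalDegree :=
        Finset.single_le_sum (f := fun j => (p j).totalDegree) (fun _ _ => Nat.zero_le _)
          (Finset.mem_univ j)
      omega
    · intro α β h
      have h1 : (Finsupp.sumElim α β).degree ≤ A.totalDegree := le_totalDegree h
      rw [degree_sumElim] at h1
      omega
  obtain ⟨i₁, i₂, h12⟩ : ∃ i₁ i₂ : Fin n, i₁ ≠ i₂ :=
    ⟨⟨0, by omega⟩, ⟨1, by omega⟩, by simp [Fin.ext_iff]⟩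
  set f := sh i₁ i₂ B with hf
  set f' := sh' i₁ i₂ B with hf'
  set P : Fin m → Pol n := fun j => mm f (p j) with hPdef
  set A' := mm (pr f') A with hA'
  have hmain : (∑ j, rename Sum.inl (P j) * rename Sum.inr (map (starRingEnd ℂ) (P j)) :
      MvPolynomial (Fin n ⊕ Fin n) ℂ) = (∑ k : Fin n, X (Sum.inl k) * X (Sum.inr k)) * A' := by
    rw [hA', ← mm_xx f f' (fun α k => sh_add i₁ i₂ B α k) A, ← hpol, map_sum]
    refine Finset.sum_congr rfl (fun j _ => ?_)
    rw [mm_mul]
    congr 2
    rw [hPdef]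
    simp only
    rw [mm_eq_sum, mm_eq_sum, map_sum, support_map_of_injective _ (RingHom.injective _)]
    refine Finset.sum_congr rfl (fun α _ => ?_)
    rw [map_monomial, coeff_map]
  set D := (B + 1) * B - 1 with hD
  have hD1 : D + 1 = (B + 1) * B := by
    have : 1 ≤ (B + 1) * B := Nat.one_le_iff_ne_zero.2 (by positivity)
    omega
  -- hermitian symmetry
  have htau : tau A' = A' := by
    have h1 : tau ((∑ k : Fin n, X (Sum.inl k) * X (Sum.inr k)) * A') =
        (∑ k : Fin n, X (Sum.inl k) * X (Sum.inr k)) * A' := by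
      rw [← hmain, map_sum]
      exact Finset.sum_congr rfl (fun j _ => tau_pp _)
    rw [map_mul, tau_xx] at h1
    exact mul_left_cancel₀ (xx_ne_zero (by omega)) h1
  set S : Finset (Fin n →₀ ℕ) := Finset.finsuppAntidiag Finset.univ D with hSdef
  have hSmem : ∀ α, α ∈ S ↔ α.degree = D := by
    intro α
    rw [hSdef, Finset.mem_finsuppAntidiag, Finsupp.degree_eq_sum]
    simp
  have hsupp : ∀ α β, coeff (Finsupp.sumElim α β) A' ≠ 0 → α ∈ S ∧ β ∈ S := by
    intro α β h
    rw [hA', mm_eq_sum, coeff_sum] at h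
    obtain ⟨e, he, hne⟩ := Finset.exists_ne_zero_of_sum_ne_zero h
    obtain ⟨x, y, rfl⟩ := exists_sumElim e
    rw [coeff_monomial, pr_sumElim] at hne
    have h2 : (Finsupp.sumElim (f' x) (f' y) : Fin n ⊕ Fin n →₀ ℕ) = Finsupp.sumElim α β := by
      by_contra hc
      rw [if_neg hc] at hne
      exact hne rfl
    obtain ⟨h3, h4⟩ := (H402.CE.t2b_inj _ _ _ _).1 h2
    obtain ⟨h5, h6⟩ := hBA x y he
    rw [hSmem, hSmem, ← h3, ← h4]
    exact ⟨sh'_degree i₁ i₂ B x h5, sh'_degree i₁ i₂ B y h6⟩
  -- rank factorisation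
  let c : Matrix S S ℂ := fun α β => coeff (Finsupp.sumElim α.1 β.1) A'
  have hc : c.IsHermitian := by
    ext α β
    rw [Matrix.conjTranspose_apply]
    show star (coeff (Finsupp.sumElim β.1 α.1) A') = coeff (Finsupp.sumElim α.1 β.1) A'
    rw [← htau]
    conv_rhs => rw [coeff_tau]
    rw [htau]
    rfl
  obtain ⟨r, l, u, hl, hu, hcu⟩ := rank_fact c hc
  let e : Fin r → Pol n := fun i => ∑ α : S, monomial α.1 (u i α)
  have he : ∀ i (α : S), coeff α.1 (e i) = u i α := by
    intro i α
    show coeff α.1 (∑ α : S, monomial α.1 (u i α)) = _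
    rw [coeff_sum, Finset.sum_eq_single α]
    · rw [coeff_monomial, if_pos rfl]
    · intro β _ hβ
      rw [coeff_monomial, if_neg (fun h => hβ (Subtype.ext h))]
    · intro h; exact absurd (Finset.mem_univ _) h
  have hev : ∀ i (z : Fin n → ℂ), eval z (e i) = ∑ α : S, u i α * eval z (monomial α.1 1) := by
    intro i z
    show eval z (∑ α : S, monomial α.1 (u i α)) = _
    rw [map_sum]
    refine Finset.sum_congr rfl (fun α _ => ?_)
    rw [eval_monomial, eval_monomial, one_mul]
  refine ⟨r, D, ⟨P, e, Matrix.diagonal (fun i => (l i : ℂ)), ?_, ?_, ?_, ?_, ?_, ?_, ?_⟩, ?_⟩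
  · -- independence of `P`
    rw [Fintype.linearIndependent_iff]
    intro g hg
    have h1 : mm f (∑ j, g j • p j) = 0 := by
      rw [map_sum, ← hg]
      exact Finset.sum_congr rfl (fun j _ => by rw [map_smul])
    have h2 : (∑ j, g j • p j) = 0 := by
      refine mm_inj f _ ?_ h1
      refine (sh_inj i₁ i₂ h12 B).mono ?_
      intro α hα
      have hα' : coeff α (∑ j, g j • p j) ≠ 0 := mem_support_iff.1 hα
      rw [coeff_sum] at hα'
      obtain ⟨j, _, hj⟩ := Finset.exists_ne_zero_of_sum_ne_zero hα'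
      rw [coeff_smul] at hj
      exact hBp j α (mem_support_iff.2 (fun h => hj (by rw [h, smul_zero])))
    exact Fintype.linearIndependent_iff.1 hp g h2
  · -- independence of `e`
    rw [Fintype.linearIndependent_iff]
    intro g hg
    refine Fintype.linearIndependent_iff.1 hu g ?_
    ext α
    have h1 := congrArg (coeff α.1) hg
    rw [coeff_sum, coeff_zero] at h1
    rw [Finset.sum_apply, Pi.zero_apply, ← h1]
    refine Finset.sum_congr rfl (fun i _ => ?_)
    rw [coeff_smul, he, Pi.smul_apply]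
  · intro j
    rw [hD1]
    exact mm_hom f (p j) _ (fun α hα => sh_degree i₁ i₂ B α (hBp j α hα).le)
  · intro i
    refine IsHomogeneous.sum _ _ _ (fun α _ => ?_)
    exact isHomogeneous_monomial _ ((hSmem α.1).1 α.2)
  · ext i j
    rw [Matrix.conjTranspose_apply, Matrix.diagonal_apply, Matrix.diagonal_apply]
    by_cases h : i = j
    · subst h
      rw [if_pos rfl]
      exact Complex.conj_ofReal _
    · rw [if_neg h, if_neg (Ne.symm h), star_zero]
  · rw [Matrix.det_diagonal]
    exact IsUnit.mk0 _ (Finset.prod_ne_zero_iff.2 (fun i _ => Complex.ofReal_ne_zero.2 (hl i)))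
  · intro z w
    have h1 := congrArg (eval (Sum.elim z (fun k => (starRingEnd ℂ) (w k)))) hmain
    rw [map_mul, eval_xx, map_sum, eval_matrix S A' hsupp] at h1
    have h2 : ∀ α β : S, coeff (Finsupp.sumElim α.1 β.1) A' =
        ∑ i, (l i : ℂ) * u i α * star (u i β) := hcu
    simp only [eval_ren] at h1
    rw [h1]
    congr 1
    exact fact_sum c l u hcu e z w hev
  · -- the transfer
    intro hpsd
    have hl0 : ∀ i, 0 ≤ l i := by
      intro i
      have h := hpsd (Pi.single i 1)
      simp only at h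
      rw [Finset.sum_eq_single i, Finset.sum_eq_single i] at h
      · simpa [Matrix.diagonal_apply_eq] using h
      · intro k _ hk
        rw [Matrix.diagonal_apply_ne _ (Ne.symm hk), zero_mul, zero_mul]
      · intro h; exact absurd (Finset.mem_univ _) h
      · intro k _ hk
        refine Finset.sum_eq_zero (fun j _ => ?_)
        rw [Pi.single_eq_of_ne hk, mul_zero, zero_mul]
      · intro h; exact absurd (Finset.mem_univ _) h
    set T : Finset (Fin n →₀ ℕ) :=
      (Finset.range B).biUnion (fun d => Finset.finsuppAntidiag Finset.univ d) with hT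
    have hTmem : ∀ α, α ∈ T ↔ α.degree < B := by
      intro α
      rw [hT, Finset.mem_biUnion]
      constructor
      · rintro ⟨d, hd, h⟩
        rw [Finset.mem_finsuppAntidiag] at h
        rw [Finsupp.degree_eq_sum, h.1]
        exact Finset.mem_range.1 hd
      · intro h
        refine ⟨α.degree, Finset.mem_range.2 h, ?_⟩
        rw [Finset.mem_finsuppAntidiag, Finsupp.degree_eq_sum]
        simp
    have hfS : ∀ α : T, f' α.1 ∈ S := fun α =>
      (hSmem _).2 (sh'_degree i₁ i₂ B α.1 ((hTmem _).1 α.2))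
    have hTsupp : ∀ α β, coeff (Finsupp.sumElim α β) A ≠ 0 → α ∈ T ∧ β ∈ T := by
      intro α β h
      obtain ⟨h5, h6⟩ := hBA α β (mem_support_iff.2 h)
      exact ⟨(hTmem _).2 h5, (hTmem _).2 h6⟩
    have hcoef : ∀ α β : T, coeff (Finsupp.sumElim (f' α.1) (f' β.1)) A' =
        coeff (Finsupp.sumElim α.1 β.1) A := by
      intro α β
      rw [hA', mm_eq_sum, coeff_sum]
      have h1 : ∀ x ∈ A.support, x ≠ Finsupp.sumElim α.1 β.1 →
          coeff (Finsupp.sumElim (f' α.1) (f' β.1)) (monomial (pr f' x) (coeff x A)) = 0 := by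
        intro x hx hne
        obtain ⟨y, y', rfl⟩ := exists_sumElim x
        rw [coeff_monomial, if_neg]
        intro hc
        rw [pr_sumElim] at hc
        obtain ⟨h3, h4⟩ := (H402.CE.t2b_inj _ _ _ _).1 hc
        obtain ⟨h5, h6⟩ := hBA y y' hx
        apply hne
        rw [sh'_inj i₁ i₂ h12 B h5 ((hTmem _).1 α.2) h3,
          sh'_inj i₁ i₂ h12 B h6 ((hTmem _).1 β.2) h4]
      rw [Finset.sum_eq_single (Finsupp.sumElim α.1 β.1) h1]
      · rw [coeff_monomial, if_pos (pr_sumElim _ _ _)]
      · intro h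
        rw [notMem_support_iff.1 h]
        simp
    let e' : Fin r → Pol n := fun i => ∑ α : T, monomial α.1 (u i ⟨f' α.1, hfS α⟩)
    have hev' : ∀ i (z : Fin n → ℂ), eval z (e' i) =
        ∑ α : T, u i ⟨f' α.1, hfS α⟩ * eval z (monomial α.1 1) := by
      intro i z
      show eval z (∑ α : T, monomial α.1 (u i ⟨f' α.1, hfS α⟩)) = _
      rw [map_sum]
      refine Finset.sum_congr rfl (fun α _ => ?_)
      rw [eval_monomial, eval_monomial, one_mul]
    refine ⟨r, fun i => C ((Real.sqrt (l i) : ℝ) : ℂ) * e' i, fun z => ?_⟩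
    rw [eval_matrix T A hTsupp z z]
    have h7 : ∀ α β : T, coeff (Finsupp.sumElim α.1 β.1) A =
        ∑ i, (l i : ℂ) * u i ⟨f' α.1, hfS α⟩ * star (u i ⟨f' β.1, hfS β⟩) := by
      intro α β
      rw [← hcoef]
      exact hcu ⟨f' α.1, hfS α⟩ ⟨f' β.1, hfS β⟩
    rw [fact_sum (fun α β : T => coeff (Finsupp.sumElim α.1 β.1) A) l
      (fun i α => u i ⟨f' α.1, hfS α⟩) h7 e' z z hev']
    push_cast
    refine Finset.sum_congr rfl (fun i _ => ?_)
    rw [Finset.sum_eq_single i]
    · rw [Matrix.diagonal_apply_eq, map_mul, eval_C, norm_mul, Complex.norm_real,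
        Real.norm_of_nonneg (Real.sqrt_nonneg _)]
      push_cast
      rw [mul_pow, ← Complex.ofReal_pow, Real.sq_sqrt (hl0 i), mul_assoc]
      congr 1
      exact Complex.mul_conj' _
    · intro k _ hk
      rw [Matrix.diagonal_apply_ne _ (Ne.symm hk), zero_mul, zero_mul]
    · intro h; exact absurd (Finset.mem_univ _) h

end Pool.Agent.W2helper17.SOS
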